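import Pool.Agent.Lib.MP_0c3001_gt.ExtGen

/-!
# Comparison maps between Ext groups along exact functors (Shapiro, change of rings)
-/

set_option autoImplicit false

namespace Pool.MP0c3001

open CategoryTheory CategoryTheory.Abelian Limits

noncomputable section

universe u v u' v'

variable {C : Type u} [Category.{v} C] [Abelian C] [HasExt.{0} C]
  {D : Type u'} [Category.{v'} D] [Abelian D] [HasExt.{0} D]

/-- For an exact functor `F : C ⥤ D`, objects `X : C`, `X' : D`, `Y : C`, `Y' : D` and maps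
`p : X' ⟶ F X`, `q : F Y ⟶ Y'`: the map `Ext_C(X,Y) → Ext_D(X',Y')`, `β ↦ q ∘ F(β) ∘ p`. -/
def cmp (F : C ⥤ D) [F.Additive] [PreservesFiniteLimits F] [PreservesFiniteColimits F]
    {X Y : C} {X' Y' : D} (p : X' ⟶ F.obj X) (q : F.obj Y ⟶ Y') (i : ℕ) :
    Ext.{0} X Y i →+ Ext.{0} X' Y' i :=
  ((Ext.mk₀ p).precomp Y' (zero_add i)).comp
    (((Ext.mk₀ q).postcomp (F.obj X) (add_zero i)).comp (F.mapExtAddHom X Y i))

variable (F : C ⥤ D) [F.Additive] [PreservesFiniteLimits F] [PreservesFiniteColimits F]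

lemma cmp_apply {X Y : C} {X' Y' : D} (p : X' ⟶ F.obj X) (q : F.obj Y ⟶ Y') (i : ℕ)
    (x : Ext.{0} X Y i) :
    cmp F p q i x = (Ext.mk₀ p).comp ((x.mapExactFunctor F).comp (Ext.mk₀ q) (add_zero i))
      (zero_add i) := rfl

lemma cmp_comp {X Y Z : C} {Z' : D} {i j k : ℕ} (h : i + j = k)
    (q : F.obj Z ⟶ Z') (x : Ext.{0} X Y i) (y : Ext.{0} Y Z j) :
    cmp F (𝟙 (F.obj X)) q k (x.comp y h) =
      (x.mapExactFunctor F).comp (cmp F (𝟙 (F.obj Y)) q j y) h := by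
  simp only [cmp_apply, Ext.mapExactFunctor_comp, Ext.mk₀_id_comp]
  exact Ext.comp_assoc _ _ _ _ _ (by omega)

/-- naturality of `cmp` with respect to connecting homomorphisms -/
lemma cmp_extClass {S : ShortComplex C} {S' : ShortComplex D} (hS : S.ShortExact)
    (hS' : S'.ShortExact) (f₁ : S'.X₁ ⟶ F.obj S.X₁) (f₂ : S'.X₂ ⟶ F.obj S.X₂)
    (f₃ : S'.X₃ ⟶ F.obj S.X₃) (c₁₂ : S'.f ≫ f₂ = f₁ ≫ F.map S.f)
    (c₂₃ : S'.g ≫ f₃ = f₂ ≫ F.map S.g)
    {Y : C} {Y' : D} (q : F.obj Y ⟶ Y') {i k : ℕ}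
    (h : 1 + i = k) (x : Ext.{0} S.X₁ Y i) :
    cmp F f₃ q k (hS.extClass.comp x h) = hS'.extClass.comp (cmp F f₁ q i x) h := by
  let f : S' ⟶ S.map F := ⟨f₁, f₂, f₃, c₁₂.symm, c₂₃.symm⟩
  have hn := ShortComplex.ShortExact.extClass_naturality.{0} hS' (hS.map_of_exact F) f
  have e1 : cmp F f₃ q k (hS.extClass.comp x h) =
      (Ext.mk₀ f₃).comp (((hS.map_of_exact F).extClass.comp (x.mapExactFunctor F) h).comp
        (Ext.mk₀ q) (add_zero k)) (zero_add k) := by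
    rw [cmp_apply, Ext.mapExactFunctor_comp, Ext.mapExactFunctor_extClass]
    rfl
  rw [e1, cmp_apply]
  have e2 : ((hS.map_of_exact F).extClass.comp (x.mapExactFunctor F) h).comp
        (Ext.mk₀ q) (add_zero k) = (hS.map_of_exact F).extClass.comp
        ((x.mapExactFunctor F).comp (Ext.mk₀ q) (add_zero i)) h :=
    Ext.comp_assoc (a₂₃ := i) _ _ _ _ (by omega) (by omega)
  rw [e2]
  have e3 : (Ext.mk₀ f₃).comp ((hS.map_of_exact F).extClass.comp
        ((x.mapExactFunctor F).comp (Ext.mk₀ q) (add_zero i)) h) (zero_add k) =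
      ((Ext.mk₀ f.τ₃).comp (hS.map_of_exact F).extClass (zero_add 1)).comp
        ((x.mapExactFunctor F).comp (Ext.mk₀ q) (add_zero i)) h :=
    (Ext.comp_assoc (a₁₂ := 1) _ _ _ (by omega) (by omega) (by omega)).symm
  rw [e3, ← hn]
  exact Ext.comp_assoc (a₂₃ := i) _ _ _ _ (by omega) (by omega)

/-- naturality of `cmp` with respect to precomposition -/
lemma cmp_precomp {X₁ X₂ : C} {X₁' X₂' : D} (g : X₁ ⟶ X₂) (g' : X₁' ⟶ X₂')
    (p₁ : X₁' ⟶ F.obj X₁) (p₂ : X₂' ⟶ F.obj X₂) (w : g' ≫ p₂ = p₁ ≫ F.map g)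
    {Y : C} {Y' : D} (q : F.obj Y ⟶ Y') (i : ℕ) (x : Ext.{0} X₂ Y i) :
    cmp F p₁ q i ((Ext.mk₀ g).comp x (zero_add i)) =
      (Ext.mk₀ g').comp (cmp F p₂ q i x) (zero_add i) := by
  rw [cmp_apply, cmp_apply, Ext.mapExactFunctor_comp, Ext.mapExactFunctor_mk₀]
  rw [Ext.comp_assoc (a₂₃ := i) _ _ _ _ (by omega) (by omega)]
  rw [Ext.mk₀_comp_mk₀_assoc, Ext.mk₀_comp_mk₀_assoc, w]

/-- degree zero -/
lemma cmp_zero_bijective {X Y : C} {X' Y' : D} (p : X' ⟶ F.obj X) (q : F.obj Y ⟶ Y')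
    (hb : Function.Bijective (fun f : X ⟶ Y => p ≫ F.map f ≫ q)) :
    Function.Bijective (cmp F p q 0) := by
  have key : ∀ f : X ⟶ Y, cmp F p q 0 (Ext.mk₀ f) = Ext.mk₀ (p ≫ F.map f ≫ q) := by
    intro f
    rw [cmp_apply, Ext.mapExactFunctor_mk₀, Ext.mk₀_comp_mk₀, Ext.mk₀_comp_mk₀]
  constructor
  · intro x y hxy
    obtain ⟨f, rfl⟩ := (Ext.mk₀_bijective X Y).2 x
    obtain ⟨g, rfl⟩ := (Ext.mk₀_bijective X Y).2 y
    rw [key, key] at hxy
    rw [hb.1 ((Ext.mk₀_bijective _ _).1 hxy)]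
  · intro y
    obtain ⟨g, rfl⟩ := (Ext.mk₀_bijective X' Y').2 y
    obtain ⟨f, hf⟩ := hb.2 g
    exact ⟨Ext.mk₀ f, by rw [key]; exact congrArg _ hf⟩

/-- The step of the dimension shifting. -/
lemma cmp_succ_bijective {S : ShortComplex C} {S' : ShortComplex D} (hS : S.ShortExact)
    (hS' : S'.ShortExact) (f₁ : S'.X₁ ⟶ F.obj S.X₁) (f₂ : S'.X₂ ⟶ F.obj S.X₂)
    (f₃ : S'.X₃ ⟶ F.obj S.X₃) (c₁₂ : S'.f ≫ f₂ = f₁ ≫ F.map S.f)
    (c₂₃ : S'.g ≫ f₃ = f₂ ≫ F.map S.g) [Projective S.X₂] [Projective S'.X₂]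
    {Y : C} {Y' : D} (q : F.obj Y ⟶ Y') (i : ℕ)
    (h₂ : Function.Surjective (cmp F f₂ q i)) (h₁ : Function.Bijective (cmp F f₁ q i)) :
    Function.Bijective (cmp F f₃ q (i + 1)) := by
  constructor
  · rw [injective_iff_map_eq_zero]
    intro x hx
    obtain ⟨x₁, rfl⟩ := Ext.contravariant_sequence_exact₃ hS Y x
      (Ext.eq_zero_of_projective _) (show 1 + i = i + 1 by omega)
    rw [cmp_extClass F hS hS' f₁ f₂ f₃ c₁₂ c₂₃ q (by omega) x₁] at hx
    obtain ⟨y₂, hy₂⟩ := Ext.contravariant_sequence_exact₁ hS' Y' _ (by omega) hx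
    obtain ⟨x₂, rfl⟩ := h₂ y₂
    rw [← cmp_precomp F S.f S'.f f₁ f₂ c₁₂ q i x₂] at hy₂
    rw [← h₁.1 hy₂]
    exact hS.extClass_comp_assoc _
  · intro y
    obtain ⟨y₁, rfl⟩ := Ext.contravariant_sequence_exact₃ hS' Y' y
      (Ext.eq_zero_of_projective _) (show 1 + i = i + 1 by omega)
    obtain ⟨x₁, rfl⟩ := h₁.2 y₁
    exact ⟨hS.extClass.comp x₁ (by omega),
      cmp_extClass F hS hS' f₁ f₂ f₃ c₁₂ c₂₃ q (by omega) x₁⟩

/-- **Shapiro's lemma** for an adjunction `F ⊣ G` with `F` exact and preserving projectives. -/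
lemma shapiro_bijective [EnoughProjectives C] [F.PreservesProjectiveObjects] {G : D ⥤ C}
    (adj : F ⊣ G) (X : C) (Y : D) (i : ℕ) :
    Function.Bijective (cmp F (𝟙 (F.obj X)) (adj.counit.app Y) i) := by
  induction i generalizing X with
  | zero =>
    apply cmp_zero_bijective
    have : (fun f : X ⟶ G.obj Y => 𝟙 (F.obj X) ≫ F.map f ≫ adj.counit.app Y) =
        (adj.homEquiv X Y).symm := by
      ext f
      simp [Adjunction.homEquiv_counit]
    rw [this]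
    exact (adj.homEquiv X Y).symm.bijective
  | succ i ih =>
    let P : ProjectivePresentation X := Classical.arbitrary _
    let S := ShortComplex.mk _ _ (kernel.condition P.f)
    have hS : S.ShortExact := { exact := ShortComplex.exact_kernel P.f }
    have : Projective (S.map F).X₂ :=
      Functor.PreservesProjectiveObjects.projective_obj P.projective
    have : Projective S.X₂ := P.projective
    exact cmp_succ_bijective F hS (hS.map_of_exact F) (𝟙 (F.obj S.X₁)) (𝟙 (F.obj S.X₂))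
      (𝟙 (F.obj S.X₃)) ((Category.comp_id _).trans (Category.id_comp _).symm)
      ((Category.comp_id _).trans (Category.id_comp _).symm) (adj.counit.app Y) i (ih _).2 (ih _)

end

end Pool.MP0c3001
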