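import Pool.Agent.Lib.MP_0c3001_gt.Adj

/-!
# Centres of groups of finite cohomological type (problem MP_0c3001_gt)

Basic notation.  Everything takes place in the category `Rep.{0} k G` of `k`-linear
representations of a group `G : Type`.  In the end `k = ℤ`; we keep `k` general (with the
hypothesis `Function.Bijective (Int.cast : ℤ → k)` where needed) in order to avoid the two
different `ℤ`-module structures on a representation over `ℤ`.
-/

set_option autoImplicit false

namespace Pool.MP0c3001

open CategoryTheory CategoryTheory.Abelian Limits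

noncomputable section

variable (k : Type) [CommRing k] (G : Type) [Group G]

instance hasExtRep : HasExt.{0} (Rep.{0} k G) :=
  hasExt_of_enoughProjectives.{0} (Rep.{0} k G)

/-- The trivial representation `k`. -/
abbrev Zt : Rep.{0} k G := Rep.trivial k G k

/-- Group cohomology `H^i(G;V)` as an `Ext` group. -/
abbrev HH (V : Rep.{0} k G) (i : ℕ) : Type := Ext.{0} (Zt k G) V i

/-- `m` kills `H^i(G;V)` for all `V` and all `i ≥ d`. -/
def Kills (m d : ℕ) : Prop :=
  ∀ (V : Rep.{0} k G) (i : ℕ), d ≤ i → ∀ x : HH k G V i, m • x = 0

/-- All `H^i(G;V)` with `V` finitely generated over `k` are finitely generated abelian groups. -/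
def FgCoh : Prop :=
  ∀ (V : Rep.{0} k G), Module.Finite k V.V → ∀ i : ℕ, Module.Finite ℤ (HH k G V i)

variable {k G}

lemma shortExact_of {A B C : Rep.{0} k G} (f : A ⟶ B) (g : B ⟶ C) (w : f ≫ g = 0)
    (hf : Function.Injective f.hom) (hg : Function.Surjective g.hom)
    (h : ∀ b : B.V, g.hom b = 0 → ∃ a : A.V, f.hom a = b) : (ShortComplex.mk f g w).ShortExact := by
  have h1 : Mono f := (Rep.mono_iff_injective f).2 hf
  have h2 : Epi g := (Rep.epi_iff_surjective g).2 hg
  have h3 : (ShortComplex.mk f g w).Exact := by
    rw [← ShortComplex.exact_map_iff_of_faithful (ShortComplex.mk f g w)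
      (forget₂ (Rep.{0} k G) (ModuleCat.{0} k))]
    rw [ShortComplex.moduleCat_exact_iff]
    intro b hb
    exact h b hb
  exact { exact := h3, mono_f := h1, epi_g := h2 }

end

end Pool.MP0c3001
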