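import Pool.Agent.Lib.MP_0c3001_gt.Free

/-!
# The extension `0 → B → D(c) → I(Q) → 0` attached to a 2-cocycle `c : Q → Q → B`
-/

set_option autoImplicit false

namespace Pool.MP0c3001

open CategoryTheory CategoryTheory.Abelian Limits

noncomputable section

variable {k : Type} [CommRing k] {Q : Type} [Group Q]

/-- The 2-cocycle identity with values in a trivial module. -/
def IsCoc {B : Type} [AddCommGroup B] (c : Q → Q → B) : Prop :=
  ∀ q' q p : Q, c (q' * q) p + c q' q = c q p + c q' (q * p)

/-- The linear form `k[Q] → B`, `p ↦ c q p`. -/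
def phi {B : Type} [AddCommGroup B] [Module k B] (c : Q → Q → B) (q : Q) :
    (Unit × Q →₀ k) →ₗ[k] B :=
  Finsupp.lift B k (Unit × Q) (fun x => c q x.2)

lemma phi_single {B : Type} [AddCommGroup B] [Module k B] (c : Q → Q → B) (q : Q) (x : Unit × Q)
    (n : k) : phi (k := k) c q (Finsupp.single x n) = n • c q x.2 := by
  simp [phi]

lemma phi_mul {B : Type} [AddCommGroup B] [Module k B] {c : Q → Q → B} (hc : IsCoc c) (q' q : Q)
    (w : Unit × Q →₀ k) :
    phi (k := k) c (q' * q) w + ((aug k Q).hom w : k) • c q' q =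
      phi c q w + phi c q' (frRho k Unit Q q w) := by
  induction w using Finsupp.induction_linear with
  | zero => simp
  | add f g hf hg =>
    have e1 : (aug k Q).hom (f + g) = (aug k Q).hom f + (aug k Q).hom g := map_add _ _ _
    rw [map_add, e1, map_add, map_add, map_add]
    have e2 : ((aug k Q).hom f + (aug k Q).hom g : k) • c q' q =
      ((aug k Q).hom f : k) • c q' q + ((aug k Q).hom g : k) • c q' q := add_smul _ _ _
    rw [e2, add_add_add_comm, hf, hg]
    abel
  | single x n =>
    rw [phi_single, phi_single, frRho_single, phi_single, aug_single, ← smul_add, ← smul_add,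
      hc q' q x.2]

lemma phi_one {B : Type} [AddCommGroup B] [Module k B] {c : Q → Q → B} (hc : IsCoc c)
    (w : Unit × Q →₀ k) (hw : (aug k Q).hom w = 0) : phi (k := k) c 1 w = 0 := by
  have h := phi_mul (k := k) hc 1 1 w
  have e : frRho k Unit Q 1 w = w := by simp
  rw [e, mul_one] at h
  have e0 : ((aug k Q).hom w : k) • c 1 1 = 0 := by rw [hw]; exact zero_smul _ _
  rw [e0, add_zero] at h
  simpa using h

/-- The underlying representation of `D(c)`. -/
def dRho {B : Type} [AddCommGroup B] [Module k B] {c : Q → Q → B} (hc : IsCoc c) :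
    Representation k Q (B × (Iaug k Q).V) where
  toFun q := LinearMap.prod
    (LinearMap.fst k B _ + (phi c q ∘ₗ (LinearMap.ker (aug k Q).hom.toLinearMap).subtype) ∘ₗ
      LinearMap.snd k B _)
    ((Iaug k Q).ρ q ∘ₗ LinearMap.snd k B _)
  map_one' := by
    apply LinearMap.ext
    rintro ⟨b, w⟩
    have h1 : (Iaug k Q).ρ 1 w = w := by rw [map_one]; rfl
    have h2 : phi (k := k) c 1 w.1 = 0 := phi_one hc w.1 w.2
    change (b + phi c 1 w.1, (Iaug k Q).ρ 1 w) = (b, w)
    rw [h1, h2, add_zero]
  map_mul' q' q := by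
    apply LinearMap.ext
    rintro ⟨b, w⟩
    have h1 : (Iaug k Q).ρ (q' * q) w = (Iaug k Q).ρ q' ((Iaug k Q).ρ q w) := by
      rw [map_mul]; rfl
    have h2 := phi_mul (k := k) hc q' q w.1
    have h3 : ((aug k Q).hom w.1 : k) • c q' q = 0 := by
      have : (aug k Q).hom w.1 = 0 := w.2
      rw [this]; exact zero_smul _ _
    rw [h3, add_zero] at h2
    change (b + phi c (q' * q) w.1, (Iaug k Q).ρ (q' * q) w) =
      (b + phi c q w.1 + phi c q' (frRho k Unit Q q w.1), (Iaug k Q).ρ q' ((Iaug k Q).ρ q w))
    rw [h1, h2, add_assoc]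

/-- The representation `D(c)`. -/
abbrev Dc {B : Type} [AddCommGroup B] [Module k B] {c : Q → Q → B} (hc : IsCoc c) : Rep.{0} k Q :=
  Rep.of (dRho (k := k) hc)

lemma dRho_apply {B : Type} [AddCommGroup B] [Module k B] {c : Q → Q → B} (hc : IsCoc c) (q : Q)
    (x : B × (Iaug k Q).V) :
    dRho (k := k) hc q x = (x.1 + phi c q x.2.1, (Iaug k Q).ρ q x.2) := rfl

/-- `B → D(c)`. -/
def dInc {B : Type} [AddCommGroup B] [Module k B] {c : Q → Q → B} (hc : IsCoc c) :
    Rep.trivial k Q B ⟶ Dc (k := k) hc :=
  Rep.ofHom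
    { toLinearMap := LinearMap.inl k B _
      isIntertwining' := by
        intro q
        apply LinearMap.ext
        intro b
        change (b, (0 : (Iaug k Q).V)) = dRho hc q (b, 0)
        rw [dRho_apply]
        simp }

/-- `D(c) → I(Q)`. -/
def dProj {B : Type} [AddCommGroup B] [Module k B] {c : Q → Q → B} (hc : IsCoc c) :
    Dc (k := k) hc ⟶ Iaug k Q :=
  Rep.ofHom { toLinearMap := LinearMap.snd k B _, isIntertwining' := fun q => rfl }

lemma dInc_proj {B : Type} [AddCommGroup B] [Module k B] {c : Q → Q → B} (hc : IsCoc c) :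
    dInc (k := k) hc ≫ dProj hc = 0 := by
  apply Rep.hom_ext
  apply Representation.IntertwiningMap.ext
  apply LinearMap.ext
  intro b
  rfl

theorem dSeq {B : Type} [AddCommGroup B] [Module k B] {c : Q → Q → B} (hc : IsCoc c) :
    (ShortComplex.mk (dInc (k := k) hc) (dProj hc) (dInc_proj hc)).ShortExact := by
  apply shortExact_of
  · intro x y hxy
    exact congrArg Prod.fst hxy
  · intro w
    exact ⟨(0, w), rfl⟩
  · rintro ⟨b, w⟩ hw
    have hw' : w = 0 := hw
    subst hw'
    exact ⟨b, rfl⟩

/-- The class in `H²(Q;B)` of the cocycle `c`. -/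
def cls {B : Type} [AddCommGroup B] [Module k B] {c : Q → Q → B} (hc : IsCoc c) :
    Ext.{0} (Zt k Q) (Rep.trivial k Q B) 2 :=
  splice (dSeq (k := k) hc) (augSeq k Q)

/-- The morphism of trivial representations induced by a linear map. -/
abbrev trivMap {B B' : Type} [AddCommGroup B] [Module k B] [AddCommGroup B'] [Module k B']
    (θ : B →ₗ[k] B') : Rep.trivial k Q B ⟶ Rep.trivial k Q B' :=
  Rep.ofHom { toLinearMap := θ, isIntertwining' := fun _ => rfl }

lemma IsCoc.map {B B' : Type} [AddCommGroup B] [AddCommGroup B'] {c : Q → Q → B} (hc : IsCoc c)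
    (θ : B →+ B') : IsCoc (fun q p => θ (c q p)) := by
  intro q' q p
  rw [← map_add, ← map_add, hc]

/-- The morphism `D(c) → D(θ ∘ c)`. -/
def dMap {B B' : Type} [AddCommGroup B] [Module k B] [AddCommGroup B'] [Module k B']
    (θ : B →ₗ[k] B') {c : Q → Q → B} (hc : IsCoc c) {c' : Q → Q → B'} (hc' : IsCoc c')
    (h : ∀ q p, c' q p = θ (c q p)) : Dc (k := k) hc ⟶ Dc (k := k) hc' :=
  Rep.ofHom
    { toLinearMap := LinearMap.prodMap θ LinearMap.id
      isIntertwining' := by
        intro q
        apply LinearMap.ext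
        rintro ⟨b, w⟩
        have h1 : ∀ w : Unit × Q →₀ k, θ (phi (k := k) c q w) = phi (k := k) c' q w := by
          intro w
          induction w using Finsupp.induction_linear with
          | zero => simp
          | add f g hf hg => rw [map_add, map_add, map_add, hf, hg]
          | single x n => rw [phi_single, phi_single, map_smul, h]
        change (θ (b + phi c q w.1), (Iaug k Q).ρ q w) =
          (θ b + phi c' q w.1, (Iaug k Q).ρ q w)
        rw [map_add, h1] }

/-- functoriality of the class in the coefficients -/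
theorem cls_map {B B' : Type} [AddCommGroup B] [Module k B] [AddCommGroup B'] [Module k B']
    (θ : B →ₗ[k] B') {c : Q → Q → B} (hc : IsCoc c) {c' : Q → Q → B'} (hc' : IsCoc c')
    (h : ∀ q p, c' q p = θ (c q p)) :
    cls (k := k) hc' = (cls (k := k) hc).comp (Ext.mk₀ (trivMap θ)) (add_zero 2) := by
  let f : (ShortComplex.mk (dInc (k := k) hc) (dProj hc) (dInc_proj hc)) ⟶
      (ShortComplex.mk (dInc (k := k) hc') (dProj hc') (dInc_proj hc')) :=
    { τ₁ := trivMap θ
      τ₂ := dMap θ hc hc' h
      τ₃ := 𝟙 _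
      comm₁₂ := by
        apply Rep.hom_ext
        apply Representation.IntertwiningMap.ext
        apply LinearMap.ext
        intro b
        rfl
      comm₂₃ := by
        apply Rep.hom_ext
        apply Representation.IntertwiningMap.ext
        apply LinearMap.ext
        intro b
        rfl }
  have hn := ShortComplex.ShortExact.extClass_naturality.{0} (dSeq (k := k) hc)
    (dSeq (k := k) hc') f
  have e1 : (dSeq (k := k) hc).extClass.comp (Ext.mk₀ (trivMap θ)) (add_zero 1) =
      (dSeq (k := k) hc').extClass := by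
    refine hn.trans ?_
    exact Ext.mk₀_id_comp _
  have e2 : (cls (k := k) hc).comp (Ext.mk₀ (trivMap θ)) (add_zero 2) =
      (augSeq k Q).extClass.comp ((dSeq (k := k) hc).extClass.comp (Ext.mk₀ (trivMap θ))
        (add_zero 1)) rfl :=
    Ext.comp_assoc (a₁₂ := 2) (a₂₃ := 1) _ _ _ (by omega) (by omega) (by omega)
  rw [e2, e1]
  rfl

end

end Pool.MP0c3001
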