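import Mathlib

/-!
# General lemmas on Ext groups: two-step extensions
-/

set_option autoImplicit false

namespace Pool.MP0c3001

open CategoryTheory CategoryTheory.Abelian Limits

noncomputable section

universe u v

variable {C : Type u} [Category.{v} C] [Abelian C] [HasExt.{0} C]

lemma nsmul_comp' {X Y Z : C} {a b c : ℕ} (m : ℕ) (x : Ext.{0} X Y a) (y : Ext.{0} Y Z b)
    (h : a + b = c) : (m • x).comp y h = m • (x.comp y h) :=
  map_nsmul (y.postcomp X h) m x

lemma comp_nsmul' {X Y Z : C} {a b c : ℕ} (m : ℕ) (x : Ext.{0} X Y a) (y : Ext.{0} Y Z b)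
    (h : a + b = c) : x.comp (m • y) h = m • (x.comp y h) :=
  map_nsmul (x.precomp Z h) m y

lemma zsmul_comp' {X Y Z : C} {a b c : ℕ} (m : ℤ) (x : Ext.{0} X Y a) (y : Ext.{0} Y Z b)
    (h : a + b = c) : (m • x).comp y h = m • (x.comp y h) :=
  map_zsmul (y.postcomp X h) m x

lemma comp_zsmul' {X Y Z : C} {a b c : ℕ} (m : ℤ) (x : Ext.{0} X Y a) (y : Ext.{0} Y Z b)
    (h : a + b = c) : x.comp (m • y) h = m • (x.comp y h) :=
  map_zsmul (x.precomp Z h) m y

section Gysin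

variable {W X I P Z : C} {ι : W ⟶ X} {p : X ⟶ I} {w₁ : ι ≫ p = 0} {j : I ⟶ P} {a : P ⟶ Z}
  {w₂ : j ≫ a = 0}
  (h₁ : (ShortComplex.mk ι p w₁).ShortExact) (h₂ : (ShortComplex.mk j a w₂).ShortExact)

/-- The Yoneda splice of `0 → W → X → I → 0` and `0 → I → P → Z → 0`. -/
def splice : Ext.{0} Z W 2 := h₂.extClass.comp h₁.extClass rfl

lemma splice_comp {V : C} {i k : ℕ} (α : Ext.{0} W V i) (hk : 2 + i = k) {l : ℕ}
    (hl : 1 + i = l) :
    (splice h₁ h₂).comp α hk = h₂.extClass.comp (h₁.extClass.comp α hl) (by omega) := by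
  unfold splice
  exact Ext.comp_assoc _ _ _ _ _ (by omega)

/-- If `m` kills `Ext^{i+1}(X,V)` then `m β` is in the image of the splice. -/
lemma gys_surj [Projective P] (V : C) (i m : ℕ) (hX : ∀ x : Ext.{0} X V (i + 1), m • x = 0)
    (β : Ext.{0} Z V (i + 2)) :
    ∃ α : Ext.{0} W V i, (splice h₁ h₂).comp α (by omega) = m • β := by
  obtain ⟨β', hβ'⟩ := Ext.contravariant_sequence_exact₃ h₂ V β
    (Ext.eq_zero_of_projective _) (show 1 + (i + 1) = i + 2 by omega)
  obtain ⟨α, hα⟩ := Ext.contravariant_sequence_exact₃ h₁ V (m • β')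
    (by rw [comp_nsmul']; exact hX _) (show 1 + i = i + 1 by omega)
  refine ⟨α, ?_⟩
  rw [splice_comp h₁ h₂ α _ (show 1 + i = i + 1 by omega), hα, comp_nsmul', hβ']

/-- If `m` kills `Ext^i(X,V)` then `m` kills the kernel of the splice on `Ext^i(W,V)`. -/
lemma gys_inj [Projective P] (V : C) (i m : ℕ) (hX : ∀ x : Ext.{0} X V i, m • x = 0)
    (α : Ext.{0} W V i) (h : (splice h₁ h₂).comp α (show 2 + i = i + 2 by omega) = 0) :
    m • α = 0 := by
  rw [splice_comp h₁ h₂ α _ (show 1 + i = i + 1 by omega)] at h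
  obtain ⟨x₂, hx₂⟩ := Ext.contravariant_sequence_exact₁ h₂ V _ _ h
  have h0 : x₂ = 0 := Ext.eq_zero_of_projective _
  rw [h0, Ext.comp_zero] at hx₂
  obtain ⟨x, hx⟩ := Ext.contravariant_sequence_exact₁ h₁ V α (show 1 + i = i + 1 by omega) hx₂.symm
  rw [← hx, ← comp_nsmul', hX x, Ext.comp_zero]

end Gysin

lemma fg_of_exact {A B C : Type} [AddCommGroup A] [AddCommGroup B] [AddCommGroup C]
    (f : A →+ B) (g : B →+ C) (h : ∀ b, g b = 0 → ∃ a, f a = b) (hA : Module.Finite ℤ A)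
    (hC : Module.Finite ℤ C) : Module.Finite ℤ B := by
  have h1 : (LinearMap.range g.toIntLinearMap).FG := IsNoetherian.noetherian _
  have h2 : (LinearMap.ker g.toIntLinearMap).FG := by
    have h3 : (LinearMap.ker g.toIntLinearMap) ≤ LinearMap.range f.toIntLinearMap := by
      intro b hb
      obtain ⟨a, ha⟩ := h b hb
      exact ⟨a, ha⟩
    have h4 : IsNoetherian ℤ (LinearMap.range f.toIntLinearMap) := inferInstance
    have h5 : IsNoetherian ℤ (LinearMap.ker g.toIntLinearMap) := isNoetherian_of_le h3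
    exact (Submodule.fg_top _).1 (h5.noetherian ⊤)
  refine ⟨Submodule.fg_of_fg_map_of_fg_inf_ker g.toIntLinearMap ?_ ?_⟩
  · rwa [Submodule.map_top]
  · rwa [top_inf_eq]

section Gysin

variable {X I P Z : C} {ι : Z ⟶ X} {p : X ⟶ I} {w₁ : ι ≫ p = 0} {j : I ⟶ P} {a : P ⟶ Z}
  {w₂ : j ≫ a = 0}
  (h₁ : (ShortComplex.mk ι p w₁).ShortExact) (h₂ : (ShortComplex.mk j a w₂).ShortExact)

include h₁ h₂ in
lemma gys_fg [Projective P] (V : C) (hX : ∀ i, Module.Finite ℤ (Ext.{0} X V i))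
    (hZ : Module.Finite ℤ (Ext.{0} Z V 0)) (i : ℕ) :
    Module.Finite ℤ (Ext.{0} Z V i) ∧ Module.Finite ℤ (Ext.{0} I V i) := by
  induction i with
  | zero =>
    refine ⟨hZ, ?_⟩
    have : Epi p := h₁.epi_g
    have := Ext.precomp_mk₀_injective_of_epi V p
    exact fg_of_exact (A := Ext.{0} X V 0) (0 : _ →+ _) ((Ext.mk₀ p).precomp V (zero_add 0))
      (fun b hb => ⟨0, by
        have : b = 0 := this (by rw [hb, map_zero])
        simp [this]⟩) (hX 0) (hX 0)
  | succ i ih =>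
    have hZ' : Module.Finite ℤ (Ext.{0} Z V (i + 1)) := by
      refine fg_of_exact (A := Ext.{0} I V i) (h₂.extClass.precomp V (by omega))
        (0 : _ →+ Ext.{0} X V 0) (fun b _ => ?_) ih.2 (hX 0)
      obtain ⟨c, hc⟩ := Ext.contravariant_sequence_exact₃ h₂ V b
        (Ext.eq_zero_of_projective _) (show 1 + i = i + 1 by omega)
      exact ⟨c, hc⟩
    refine ⟨hZ', ?_⟩
    refine fg_of_exact (A := Ext.{0} Z V i) (h₁.extClass.precomp V (by omega))
      ((Ext.mk₀ p).precomp V (zero_add (i+1))) (fun b hb => ?_) ih.1 (hX (i+1))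
    obtain ⟨c, hc⟩ := Ext.contravariant_sequence_exact₃ h₁ V b hb (show 1 + i = i + 1 by omega)
    exact ⟨c, hc⟩

end Gysin

end

end Pool.MP0c3001
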