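import Mathlib

/-!
# Finite domination of the list resolution (interface between topology and algebra)

`List G →₀ k` is the augmented homogeneous bar complex of `G`: a list `[g₀, …, g_n]` is an
`n`-simplex, the empty list is the generator of the augmentation module.
-/

set_option autoImplicit false

namespace Pool.MP0c3001

noncomputable section

variable (k : Type) [CommRing k] {G : Type}

/-- The cone: put `a` in front of every list. -/
def lcone (a : G) : (List G →₀ k) →ₗ[k] (List G →₀ k) :=
  Finsupp.lmapDomain k k (List.cons a)

/-- The boundary of a list: `∂ [] = 0`, `∂ (a :: l) = l - a :: ∂ l`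
(so `∂ [a] = []` is the augmentation). -/
def lbdL : List G → (List G →₀ k)
  | [] => 0
  | a :: l => Finsupp.single l 1 - lcone k a (lbdL l)

/-- The boundary of the augmented complex of lists. -/
def lbd : (List G →₀ k) →ₗ[k] (List G →₀ k) :=
  Finsupp.linearCombination k (lbdL k)

/-- The diagonal action of the group on lists. -/
def lact [Group G] (g : G) : (List G →₀ k) →ₗ[k] (List G →₀ k) :=
  Finsupp.lmapDomain k k (List.map (g * ·))

/-- `b` is an equivariant augmentation preserving chain endomorphism of the list complex of `G`
which factors through finitely many orbits of lists. -/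
structure IsFD (k : Type) [CommRing k] (G : Type) [Group G]
    (b : (List G →₀ k) →ₗ[k] (List G →₀ k)) (Z : Finset (List G)) : Prop where
  nil : b (Finsupp.single [] 1) = Finsupp.single [] 1
  bd : ∀ x, lbd k (b x) = b (lbd k x)
  equiv : ∀ (g : G) x, b (lact k g x) = lact k g (b x)
  length : ∀ l, ∀ l' ∈ (b (Finsupp.single l 1)).support, l'.length = l.length
  orbits : ∀ l, ∀ l' ∈ (b (Finsupp.single l 1)).support, ∃ g : G, ∃ z ∈ Z, l' = z.map (g * ·)

/-- `G` is finitely dominated (chain level, all degrees, bounded). -/
def FD (k : Type) [CommRing k] (G : Type) [Group G] : Prop :=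
  ∃ (b : (List G →₀ k) →ₗ[k] (List G →₀ k)) (Z : Finset (List G)), IsFD k G b Z

end

end Pool.MP0c3001
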