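import Pool.Agent.Lib.MP_0c3001_gt.Basic

/-!
# Free representations, augmentation ideals
-/

set_option autoImplicit false

namespace Pool.MP0c3001

open CategoryTheory CategoryTheory.Abelian Limits

noncomputable section

variable (k : Type) [CommRing k]

/-- The action of `G` on `k[S × G]` by left multiplication on `G`. -/
def frRho (S G : Type) [Group G] : Representation k G (S × G →₀ k) where
  toFun h := Finsupp.lmapDomain k k (fun x : S × G => (x.1, h * x.2))
  map_one' := by
    ext x : 2
    simp
  map_mul' h h' := by
    apply Finsupp.lhom_ext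
    intro x n
    simp [Finsupp.mapDomain_single, mul_assoc]

@[simp] lemma frRho_single {S G : Type} [Group G] (h : G) (x : S × G) (n : k) :
    frRho k S G h (Finsupp.single x n) = Finsupp.single (x.1, h * x.2) n := by
  simp [frRho, Finsupp.mapDomain_single]

/-- The free representation on the set `S`. -/
abbrev Fr (S G : Type) [Group G] : Rep.{0} k G := Rep.of (frRho k S G)

variable {k} {S G : Type} [Group G]

/-- The universal property of `Fr`. -/
def frLift (V : Rep.{0} k G) (f : S → V.V) : Fr k S G ⟶ V :=
  Rep.ofHom
    { toLinearMap := Finsupp.lift V.V k (S × G) (fun x => V.ρ x.2 (f x.1))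
      isIntertwining' := by
        intro h
        apply Finsupp.lhom_ext
        intro x n
        simp }

@[simp] lemma frLift_single (V : Rep.{0} k G) (f : S → V.V) (x : S × G) (n : k) :
    (frLift V f).hom (Finsupp.single x n) = n • V.ρ x.2 (f x.1) := by
  have : (frLift V f).hom (Finsupp.single x n) =
    Finsupp.lift V.V k (S × G) (fun x => V.ρ x.2 (f x.1)) (Finsupp.single x n) := rfl
  rw [this]
  simp

lemma fr_hom_ext {V : Rep.{0} k G} {f g : Fr k S G ⟶ V}
    (h : ∀ s : S, f.hom (Finsupp.single (s, 1) 1) = g.hom (Finsupp.single (s, 1) 1)) : f = g := by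
  apply Rep.hom_ext
  apply Representation.IntertwiningMap.ext
  apply Finsupp.lhom_ext
  intro x n
  have e : ∀ f : Fr k S G ⟶ V, f.hom (Finsupp.single x n) =
      n • V.ρ x.2 (f.hom (Finsupp.single (x.1, 1) 1)) := by
    intro f
    rw [← Rep.hom_comm_apply]
    have : (Fr k S G).ρ x.2 (Finsupp.single (x.1, 1) 1) = Finsupp.single x (1 : k) := by
      change frRho k S G x.2 _ = _
      simp
    rw [this, ← map_smul]
    simp
  change f.hom (Finsupp.single x n) = g.hom (Finsupp.single x n)
  rw [e f, e g, h]

instance fr_projective : Projective (Fr k S G) where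
  factors {E X} f e he := by
    have hs := (Rep.epi_iff_surjective e).1 he
    choose u hu using hs
    refine ⟨frLift E (fun s => u (f.hom (Finsupp.single (s, 1) 1))), ?_⟩
    apply fr_hom_ext
    intro s
    rw [Rep.hom_comp]
    change e.hom ((frLift E _).hom _) = _
    rw [frLift_single]
    simp [hu]

/-- The kernel of a morphism of representations. -/
abbrev kerRep {A B : Rep.{0} k G} (f : A ⟶ B) : Rep.{0} k G :=
  Rep.subrepresentation A (LinearMap.ker f.hom.toLinearMap) (by
    intro g x hx
    have hx' : f.hom x = 0 := hx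
    change f.hom (A.ρ g x) = 0
    rw [Rep.hom_comm_apply, hx', map_zero])

/-- The inclusion of the kernel. -/
abbrev kerInc {A B : Rep.{0} k G} (f : A ⟶ B) : kerRep f ⟶ A := Rep.subtype A _ _

lemma kerInc_apply {A B : Rep.{0} k G} (f : A ⟶ B) (x : (kerRep f).V) :
    (kerInc f).hom x = x.1 := rfl

lemma kerInc_zero {A B : Rep.{0} k G} (f : A ⟶ B) : kerInc f ≫ f = 0 := by
  apply Rep.hom_ext
  apply Representation.IntertwiningMap.ext
  ext x
  exact x.2

lemma kerSeq_shortExact {A B : Rep.{0} k G} (f : A ⟶ B) (hf : Function.Surjective f.hom) :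
    (ShortComplex.mk (kerInc f) f (kerInc_zero f)).ShortExact :=
  shortExact_of _ _ _ Subtype.val_injective hf (fun b hb => ⟨⟨b, hb⟩, rfl⟩)

variable (k G) in
/-- The augmentation `k[G] → k`. -/
def aug : Fr k Unit G ⟶ Zt k G := frLift (Zt k G) (fun _ => (1 : k))

lemma aug_single (x : Unit × G) (n : k) : (aug k G).hom (Finsupp.single x n) = n := by
  unfold aug
  rw [frLift_single]
  change n • (1 : k) = n
  simp

lemma aug_surjective : Function.Surjective (aug k G).hom := fun n =>
  ⟨Finsupp.single ((), 1) n, aug_single _ _⟩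

variable (k G) in
/-- The augmentation ideal of `k[G]`. -/
abbrev Iaug : Rep.{0} k G := kerRep (aug k G)

variable (k G) in
/-- The class of `0 → I → k[G] → k → 0`. -/
theorem augSeq : (ShortComplex.mk (kerInc (aug k G)) (aug k G) (kerInc_zero _)).ShortExact :=
  kerSeq_shortExact _ aug_surjective

end

end Pool.MP0c3001
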