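import Pool.Agent.Lib.MP_0c3001_gt.Dmod

/-!
# Reduction modulo a central element of infinite order (change of rings)
-/

set_option autoImplicit false

namespace Pool.MP0c3001

open CategoryTheory CategoryTheory.Abelian Limits

noncomputable section

variable {k : Type} [CommRing k] {G Q : Type} [Group G] [Group Q]

/-- `π : G → Q` is surjective and its kernel is infinite cyclic, central, generated by `z`. -/
structure CycExt (π : G →* Q) (z : G) : Prop where
  surj : Function.Surjective π
  map_z : π z = 1
  ker : ∀ g : G, π g = 1 → ∃ n : ℤ, g = z ^ n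
  ord : ∀ n : ℤ, z ^ n = 1 → n = 0
  cen : ∀ g : G, z * g = g * z

/-- `M'` is the reduction `M/(z-1)M` and `z-1` is injective on `M`. -/
structure Red (π : G →* Q) (z : G) {M : Rep.{0} k G} {M' : Rep.{0} k Q}
    (p : M ⟶ (Rep.resFunctor π).obj M') : Prop where
  surj : Function.Surjective p.hom
  ker : ∀ x : M.V, p.hom x = 0 → ∃ y : M.V, x = M.ρ z y - y
  inj : ∀ y : M.V, M.ρ z y = y → y = 0

/-- degree 0 of the change of rings. -/
theorem red_zero {π : G →* Q} {z : G} (hπ : CycExt π z) {M : Rep.{0} k G} {M' : Rep.{0} k Q}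
    {p : M ⟶ (Rep.resFunctor π).obj M'} (hp : Red π z p) (V : Rep.{0} k Q) :
    Function.Bijective (fun f : M' ⟶ V => p ≫ (Rep.resFunctor π).map f ≫
      𝟙 ((Rep.resFunctor π).obj V)) := by
  constructor
  · intro f g hfg
    apply Rep.hom_ext
    apply Representation.IntertwiningMap.ext
    apply LinearMap.ext
    intro y
    obtain ⟨x, rfl⟩ := hp.surj y
    have h := congrArg (fun t : M ⟶ (Rep.resFunctor π).obj V => t.hom x) hfg
    exact h
  · intro h
    -- `h` kills `ρ(z) y - y`
    have h0 : ∀ y : M.V, h.hom (M.ρ z y - y) = 0 := by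
      intro y
      rw [map_sub, Rep.hom_comm_apply]
      change V.ρ (π z) (h.hom y) - h.hom y = 0
      rw [hπ.map_z, map_one]
      exact sub_self _
    have h1 : ∀ x x' : M.V, p.hom x = p.hom x' → h.hom x = h.hom x' := by
      intro x x' hx
      obtain ⟨y, hy⟩ := hp.ker (x - x') (by rw [map_sub, hx, sub_self])
      have := h0 y
      rw [← hy, map_sub] at this
      exact sub_eq_zero.1 this
    choose s hs using hp.surj
    have h2 : ∀ x : M.V, h.hom (s (p.hom x)) = h.hom x := fun x => h1 _ _ (hs _)
    let φ : M'.V →ₗ[k] V.V :=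
      { toFun := fun y => h.hom (s y)
        map_add' := by
          intro y y'
          have e : h.hom (s (y + y')) = h.hom (s y + s y') := by
            apply h1
            rw [hs, map_add, hs, hs]
          rw [e, map_add]
        map_smul' := by
          intro c y
          have e : h.hom (s (c • y)) = h.hom (c • s y) := by
            apply h1
            rw [hs, map_smul, hs]
          rw [e, map_smul]
          rfl }
    let f : M' ⟶ V := Rep.ofHom
      { toLinearMap := φ
        isIntertwining' := by
          intro q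
          obtain ⟨g, rfl⟩ := hπ.surj q
          apply LinearMap.ext
          intro y
          change h.hom (s (M'.ρ (π g) y)) = V.ρ (π g) (h.hom (s y))
          have e : h.hom (s (M'.ρ (π g) y)) = h.hom (M.ρ g (s y)) := by
            apply h1
            rw [hs, Rep.hom_comm_apply, hs]
            rfl
          rw [e, Rep.hom_comm_apply]
          rfl }
    refine ⟨f, ?_⟩
    apply Rep.hom_ext
    apply Representation.IntertwiningMap.ext
    apply LinearMap.ext
    intro x
    exact h2 x

/-- The map `k[S × G] → k[S × Q]`. -/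
def frMap (k : Type) [CommRing k] (S : Type) (π : G →* Q) :
    Fr k S G ⟶ (Rep.resFunctor π).obj (Fr k S Q) :=
  Rep.ofHom
    { toLinearMap := Finsupp.lmapDomain k k (fun x : S × G => (x.1, π x.2))
      isIntertwining' := by
        intro h
        apply Finsupp.lhom_ext
        intro x n
        change Finsupp.mapDomain _ (frRho k S G h (Finsupp.single x n)) =
          frRho k S Q (π h) (Finsupp.mapDomain _ (Finsupp.single x n))
        simp [Finsupp.mapDomain_single] }

lemma frMap_single (S : Type) (π : G →* Q) (x : S × G) (n : k) :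
    (frMap k S π).hom (Finsupp.single x n) = Finsupp.single (x.1, π x.2) n := by
  change Finsupp.mapDomain _ (Finsupp.single x n) = _
  simp [Finsupp.mapDomain_single]

lemma frMap_eq (S : Type) (π : G →* Q) (x : S × G →₀ k) :
    (frMap k S π).hom x = Finsupp.mapDomain (fun x : S × G => (x.1, π x.2)) x := rfl

lemma aux_nat (S : Type) (z : G) (s : S) (g : G) (c : k) (n : ℕ) :
    ∃ y : S × G →₀ k, Finsupp.single (s, z ^ n * g) c - Finsupp.single (s, g) c =
      frRho k S G z y - y := by
  induction n with
  | zero => exact ⟨0, by simp⟩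
  | succ n ih =>
    obtain ⟨y, hy⟩ := ih
    refine ⟨y + Finsupp.single (s, z ^ n * g) c, ?_⟩
    have h1 : Finsupp.single (s, z ^ (n + 1) * g) c =
        frRho k S G z (Finsupp.single (s, z ^ n * g) c) := by
      rw [frRho_single, pow_succ', mul_assoc]
    rw [map_add, ← h1, add_sub_add_comm, ← hy]
    abel

lemma aux_int (S : Type) (z : G) (s : S) (g : G) (c : k) (n : ℤ) :
    ∃ y : S × G →₀ k, Finsupp.single (s, z ^ n * g) c - Finsupp.single (s, g) c =
      frRho k S G z y - y := by
  obtain ⟨m, rfl | rfl⟩ := n.eq_nat_or_neg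
  · obtain ⟨y, hy⟩ := aux_nat S z s g c m
    exact ⟨y, by rw [zpow_natCast]; exact hy⟩
  · obtain ⟨y, hy⟩ := aux_nat S z s (z ^ (-(m : ℤ)) * g) c m
    refine ⟨-y, ?_⟩
    rw [← mul_assoc, ← zpow_natCast, ← zpow_add, add_neg_cancel, zpow_zero, one_mul] at hy
    rw [map_neg, ← neg_sub, hy]
    abel

theorem red_free {π : G →* Q} {z : G} (hπ : CycExt π z) (S : Type) :
    Red π z (frMap k S π) := by
  let σ : Q → G := Function.surjInv hπ.surj
  have hσ : ∀ q, π (σ q) = q := Function.surjInv_eq hπ.surj
  refine ⟨?_, ?_, ?_⟩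
  · intro y
    refine ⟨Finsupp.mapDomain (fun x : S × Q => (x.1, σ x.2)) y, ?_⟩
    rw [frMap_eq, ← Finsupp.mapDomain_comp]
    have : ((fun x : S × G => (x.1, π x.2)) ∘ fun x : S × Q => (x.1, σ x.2)) = id := by
      funext x
      simp [hσ]
    rw [this]
    exact Finsupp.mapDomain_id
  · intro x hx
    have key : ∀ x : S × G →₀ k, ∃ y : S × G →₀ k,
        x - Finsupp.mapDomain (fun x : S × G => (x.1, σ (π x.2))) x = frRho k S G z y - y := by
      intro x
      induction x using Finsupp.induction_linear with
      | zero => exact ⟨0, by simp⟩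
      | add f g hf hg =>
        obtain ⟨y₁, h₁⟩ := hf
        obtain ⟨y₂, h₂⟩ := hg
        refine ⟨y₁ + y₂, ?_⟩
        rw [Finsupp.mapDomain_add, map_add, add_sub_add_comm, h₁, h₂]
        abel
      | single x c =>
        have h1 : π (x.2 * (σ (π x.2))⁻¹) = 1 := by rw [map_mul, map_inv, hσ, mul_inv_cancel]
        obtain ⟨n, hn⟩ := hπ.ker _ h1
        obtain ⟨y, hy⟩ := aux_int S z x.1 (σ (π x.2)) c n
        rw [← hn, inv_mul_cancel_right] at hy
        refine ⟨y, ?_⟩
        rw [Finsupp.mapDomain_single]
        exact hy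
    obtain ⟨y, hy⟩ := key x
    refine ⟨y, ?_⟩
    have h2 : Finsupp.mapDomain (fun x : S × G => (x.1, σ (π x.2))) x = 0 := by
      have h3 : (fun x : S × G => (x.1, σ (π x.2))) =
          (fun x : S × Q => (x.1, σ x.2)) ∘ (fun x : S × G => (x.1, π x.2)) := rfl
      rw [h3, Finsupp.mapDomain_comp]
      rw [frMap_eq] at hx
      have hx' : Finsupp.mapDomain (fun x : S × G => (x.1, π x.2)) x = 0 := hx
      rw [hx', Finsupp.mapDomain_zero]
    rw [h2, sub_zero] at hy
    exact hy
  · intro y hy
    have hy' : frRho k S G z y = y := hy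
    have hstep : ∀ s g, y (s, z * g) = y (s, g) := by
      intro s g
      have hinj : Function.Injective (fun x : S × G => (x.1, z * x.2)) := by
        rintro ⟨s, g⟩ ⟨s', g'⟩ h
        simp only [Prod.mk.injEq, mul_right_inj] at h
        exact Prod.ext h.1 h.2
      have h1 : (Finsupp.mapDomain (fun x : S × G => (x.1, z * x.2)) y) (s, z * g) = y (s, g) :=
        Finsupp.mapDomain_apply hinj y (s, g)
      have h2 : Finsupp.mapDomain (fun x : S × G => (x.1, z * x.2)) y = y := hy'
      rw [h2] at h1
      exact h1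
    have hpow : ∀ (n : ℕ) s g, y (s, z ^ n * g) = y (s, g) := by
      intro n
      induction n with
      | zero => intro s g; rw [pow_zero, one_mul]
      | succ n ih => intro s g; rw [pow_succ', mul_assoc, hstep, ih]
    apply Finsupp.ext
    rintro ⟨s, g⟩
    by_contra hne
    have hinj : Function.Injective (fun n : ℕ => ((s, z ^ n * g) : S × G)) := by
      intro a b hab
      simp only [Prod.mk.injEq, mul_left_inj, true_and] at hab
      have h3 : z ^ ((a : ℤ) - b) = 1 := by
        rw [zpow_sub, zpow_natCast, zpow_natCast, hab, mul_inv_cancel]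
      have := hπ.ord _ h3
      omega
    have hinf := Set.infinite_of_injective_forall_mem (s := (y.support : Set (S × G))) hinj (by
      intro n
      rw [Finset.mem_coe, Finsupp.mem_support_iff, hpow]
      exact hne)
    exact hinf y.support.finite_toSet

lemma compat {π : G →* Q} {M : Rep.{0} k G} {M' : Rep.{0} k Q}
    (p : M ⟶ (Rep.resFunctor π).obj M') (x : M.V × G →₀ k) :
    p.hom ((frLift M (fun x : M.V => x)).hom x) =
      (frLift M' (fun x : M.V => p.hom x)).hom ((frMap k M.V π).hom x) := by
  induction x using Finsupp.induction_linear with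
  | zero =>
    have h1 : (frLift M (fun x : M.V => x)).hom (0 : M.V × G →₀ k) = 0 := map_zero _
    have h2 : (frMap k M.V π).hom (0 : M.V × G →₀ k) = (0 : M.V × Q →₀ k) := map_zero _
    have h3 : (frLift M' (fun x : M.V => p.hom x)).hom (0 : M.V × Q →₀ k) = 0 := map_zero _
    rw [h1, h2, h3]
    exact map_zero _
  | add f g hf hg =>
    have h1 : (frLift M (fun x : M.V => x)).hom (f + g) =
      (frLift M (fun x : M.V => x)).hom f + (frLift M (fun x : M.V => x)).hom g := map_add _ _ _
    have h2 : (frMap k M.V π).hom (f + g) =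
      ((frMap k M.V π).hom f + (frMap k M.V π).hom g : M.V × Q →₀ k) := map_add _ _ _
    have h3 : (frLift M' (fun x : M.V => p.hom x)).hom
      ((frMap k M.V π).hom f + (frMap k M.V π).hom g : M.V × Q →₀ k) =
      (frLift M' (fun x : M.V => p.hom x)).hom ((frMap k M.V π).hom f) +
      (frLift M' (fun x : M.V => p.hom x)).hom ((frMap k M.V π).hom g) := map_add _ _ _
    rw [h1, h2, h3, ← hf, ← hg]
    exact map_add _ _ _
  | single x n =>
    rw [frLift_single, frMap_single]
    have h1 : (frLift M' (fun x : M.V => p.hom x)).hom (Finsupp.single (x.1, π x.2) n) =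
      n • M'.ρ (π x.2) (p.hom x.1) := frLift_single _ _ _ _
    rw [h1]
    have h2 : p.hom (n • (M.ρ x.2) x.1) = n • p.hom ((M.ρ x.2) x.1) := map_smul _ _ _
    rw [h2, Rep.hom_comm_apply]
    rfl

/-- The presentation of `M'` compatible with the one of `M`: the kernel of
`frLift M id : k[M × G] → M` maps to the kernel of `frLift M' p : k[M × Q] → M'`. -/
theorem red_ker {π : G →* Q} {z : G} (hπ : CycExt π z) {M : Rep.{0} k G} {M' : Rep.{0} k Q}
    {p : M ⟶ (Rep.resFunctor π).obj M'} (hp : Red π z p) :
    ∃ p₁ : kerRep (frLift M (fun x : M.V => x)) ⟶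
        (Rep.resFunctor π).obj (kerRep (frLift M' (fun x : M.V => p.hom x))),
      (∀ x, (p₁.hom x).1 = (frMap k M.V π).hom x.1) ∧ Red π z p₁ := by
  have hF := red_free (k := k) hπ M.V
  have hmem : ∀ x : (kerRep (frLift M (fun x : M.V => x))).V,
      (frMap k M.V π).hom x.1 ∈
        LinearMap.ker (frLift M' (fun x : M.V => p.hom x)).hom.toLinearMap := by
    intro x
    have hx : (frLift M (fun x : M.V => x)).hom x.1 = 0 := x.2
    have h := compat p x.1
    rw [hx] at h
    have h0 : p.hom 0 = 0 := map_zero _
    rw [h0] at h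
    exact h.symm
  let L : (kerRep (frLift M (fun x : M.V => x))).V →ₗ[k]
      (kerRep (frLift M' (fun x : M.V => p.hom x))).V :=
    LinearMap.codRestrict _ ((frMap k M.V π).hom.toLinearMap ∘ₗ
      (LinearMap.ker (frLift M (fun x : M.V => x)).hom.toLinearMap).subtype) hmem
  have hL : ∀ x, (L x).1 = (frMap k M.V π).hom x.1 := fun x => rfl
  let p₁ : kerRep (frLift M (fun x : M.V => x)) ⟶
        (Rep.resFunctor π).obj (kerRep (frLift M' (fun x : M.V => p.hom x))) :=
    Rep.ofHom
      { toLinearMap := L
        isIntertwining' := by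
          intro g
          apply LinearMap.ext
          intro x
          apply Subtype.ext
          exact Rep.hom_comm_apply (frMap k M.V π) g x.1 }
  have hp₁ : ∀ x, (p₁.hom x).1 = (frMap k M.V π).hom x.1 := hL
  refine ⟨p₁, hp₁, ?_, ?_, ?_⟩
  · intro w'
    obtain ⟨w, hw⟩ := hF.surj w'.1
    have h1 : p.hom ((frLift M (fun x : M.V => x)).hom w) = 0 := by
      rw [compat p w, hw]
      exact w'.2
    obtain ⟨y, hy⟩ := hp.ker _ h1
    let u : M.V × G →₀ k := Finsupp.single (y, 1) 1
    have hu : (frLift M (fun x : M.V => x)).hom u = y := by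
      have : (frLift M (fun x : M.V => x)).hom u = (1 : k) • M.ρ (1 : G) y :=
        frLift_single _ _ _ _
      rw [this, map_one, one_smul]
      rfl
    have hzu : (frLift M (fun x : M.V => x)).hom ((Fr k M.V G).ρ z u) = M.ρ z y := by
      rw [Rep.hom_comm_apply, hu]
    have hsub : (frLift M (fun x : M.V => x)).hom (w - ((Fr k M.V G).ρ z u - u)) =
      (frLift M (fun x : M.V => x)).hom w - ((frLift M (fun x : M.V => x)).hom
        ((Fr k M.V G).ρ z u) - (frLift M (fun x : M.V => x)).hom u) := by
      rw [map_sub, map_sub]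
    have hk : (frLift M (fun x : M.V => x)).hom (w - ((Fr k M.V G).ρ z u - u)) = 0 := by
      rw [hsub, hzu, hu, hy, sub_self]
    refine ⟨⟨w - ((Fr k M.V G).ρ z u - u), hk⟩, ?_⟩
    apply Subtype.ext
    refine (hp₁ _).trans ?_
    change (frMap k M.V π).hom (w - ((Fr k M.V G).ρ z u - u)) = w'.1
    have h2 : (frMap k M.V π).hom ((Fr k M.V G).ρ z u) = (frMap k M.V π).hom u := by
      rw [Rep.hom_comm_apply]
      change (Fr k M.V Q).ρ (π z) _ = _
      rw [hπ.map_z, map_one]
      rfl
    have h3 : (frMap k M.V π).hom (w - ((Fr k M.V G).ρ z u - u)) =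
      (frMap k M.V π).hom w - ((frMap k M.V π).hom ((Fr k M.V G).ρ z u) -
        (frMap k M.V π).hom u) := by
      rw [map_sub, map_sub]
    rw [h3, h2, sub_self, sub_zero]
    exact hw
  · intro x hx
    have h1 : (frMap k M.V π).hom x.1 = 0 := by
      rw [← hp₁, hx]
      rfl
    obtain ⟨y, hy⟩ := hF.ker _ h1
    have h2 : (frLift M (fun x : M.V => x)).hom y = 0 := by
      apply hp.inj
      have hx0 : (frLift M (fun x : M.V => x)).hom x.1 = 0 := x.2
      rw [hy, map_sub, Rep.hom_comm_apply, sub_eq_zero] at hx0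
      exact hx0
    refine ⟨⟨y, h2⟩, ?_⟩
    apply Subtype.ext
    exact hy
  · intro y hy
    apply Subtype.ext
    exact hF.inj _ (congrArg Subtype.val hy)

private theorem frLift_surj {V : Rep.{0} k G} (S : Type) (f : S → V.V)
    (hf : Function.Surjective f) : Function.Surjective (frLift V f).hom := by
  intro y
  obtain ⟨s, rfl⟩ := hf y
  refine ⟨Finsupp.single (s, 1) 1, ?_⟩
  rw [frLift_single, map_one, one_smul]
  rfl

/-- **Change of rings**: if `M'` is the reduction of `M`, then
`Ext_Q^i(M',V) → Ext_G^i(M, res V)` is bijective. -/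
theorem red_bijective {π : G →* Q} {z : G} (hπ : CycExt π z) {M : Rep.{0} k G} {M' : Rep.{0} k Q}
    {p : M ⟶ (Rep.resFunctor π).obj M'} (hp : Red π z p) (V : Rep.{0} k Q) (i : ℕ) :
    Function.Bijective (cmp (Rep.resFunctor.{0} (k := k) π) p
      (𝟙 ((Rep.resFunctor π).obj V)) i) := by
  induction i generalizing M M' with
  | zero => exact cmp_zero_bijective _ p _ (red_zero hπ hp V)
  | succ i ih =>
    obtain ⟨p₁, hp₁, hr₁⟩ := red_ker hπ hp
    have hr₂ : Red π z (frMap k M.V π) := red_free hπ M.V
    have s1 : Function.Surjective (frLift M (fun x : M.V => x)).hom :=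
      frLift_surj _ _ (fun x => ⟨x, rfl⟩)
    have s2 : Function.Surjective (frLift M' (fun x : M.V => p.hom x)).hom :=
      frLift_surj _ _ hp.surj
    refine cmp_succ_bijective (Rep.resFunctor.{0} (k := k) π)
      (kerSeq_shortExact (frLift M' (fun x : M.V => p.hom x)) s2)
      (kerSeq_shortExact (frLift M (fun x : M.V => x)) s1) p₁ (frMap k M.V π) p ?_ ?_
      (𝟙 ((Rep.resFunctor π).obj V)) i (ih hr₂).2 (ih hr₁)
    · apply Rep.hom_ext
      apply Representation.IntertwiningMap.ext
      apply LinearMap.ext
      intro x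
      exact (hp₁ x).symm
    · apply Rep.hom_ext
      apply Representation.IntertwiningMap.ext
      apply Finsupp.lhom_ext
      intro x n
      change p.hom ((frLift M (fun x : M.V => x)).hom (Finsupp.single x n)) =
        (frLift M' (fun x : M.V => p.hom x)).hom ((frMap k M.V π).hom (Finsupp.single x n))
      rw [frMap_single, frLift_single, frLift_single, map_smul, Rep.hom_comm_apply]
      rfl

end

end Pool.MP0c3001
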