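import Pool.Agent.Lib.MP_0c3001_gt.Dmod
import Pool.Agent.Lib.MP_0c3001_gt.Red

/-!
# Factor sets of central extensions
-/

set_option autoImplicit false

namespace Pool.MP0c3001

open CategoryTheory CategoryTheory.Abelian Limits

noncomputable section

variable {k : Type} [CommRing k] {G Q : Type} [Group G] [Group Q]

/-- `s` is a normalized section of `π`. -/
structure IsSec (π : G →* Q) (s : Q → G) : Prop where
  sec : ∀ q, π (s q) = q
  one : s 1 = 1

/-- The factor set `f(q',q) = s(q') s(q) s(q'q)⁻¹`. -/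
def fs (π : G →* Q) (s : Q → G) (hs : IsSec π s) (q' q : Q) : π.ker :=
  ⟨s q' * s q * (s (q' * q))⁻¹, by
    rw [MonoidHom.mem_ker, map_mul, map_mul, map_inv, hs.sec, hs.sec, hs.sec]; group⟩

theorem exists_isSec (π : G →* Q) (hπ : Function.Surjective π) : ∃ s : Q → G, IsSec π s := by
  classical
  refine ⟨fun q => if q = 1 then 1 else Function.surjInv hπ q, ⟨fun q => ?_, ?_⟩⟩
  · by_cases hq : q = 1
    · rw [hq]
      simp
    · simp only [if_neg hq]
      exact Function.surjInv_eq hπ q
  · simp

/-- The factor set of a central extension satisfies the cocycle identity (after any homomorphism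
`χ` of the kernel to an abelian group). -/
theorem isCoc_fs (π : G →* Q) (s : Q → G) (hs : IsSec π s) (hcen : π.ker ≤ Subgroup.center G)
    {B : Type} [AddCommGroup B] (χ : Additive π.ker →+ B) :
    IsCoc (fun q' q => χ (Additive.ofMul (fs π s hs q' q))) := by
  intro q' q p
  have key : fs π s hs (q' * q) p * fs π s hs q' q = fs π s hs q p * fs π s hs q' (q * p) := by
    apply Subtype.ext
    have hc : ∀ (a b : Q) (g : G), g * (fs π s hs a b : G) = (fs π s hs a b : G) * g :=
      fun a b g => Subgroup.mem_center_iff.1 (hcen (fs π s hs a b).2) g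
    have e1 : ∀ a b : Q, (fs π s hs a b : G) * s (a * b) = s a * s b := by
      intro a b
      change s a * s b * (s (a * b))⁻¹ * s (a * b) = s a * s b
      rw [inv_mul_cancel_right]
    have e2 : ((fs π s hs (q' * q) p : G) * (fs π s hs q' q : G)) * s (q' * q * p) =
        s q' * s q * s p := by
      rw [hc q' q, mul_assoc, e1, ← mul_assoc, e1]
    have e3 : ((fs π s hs q p : G) * (fs π s hs q' (q * p) : G)) * s (q' * q * p) =
        s q' * s q * s p := by
      rw [mul_assoc q' q p, mul_assoc, e1, ← mul_assoc, ← hc q p, mul_assoc, e1, mul_assoc]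
    exact mul_right_cancel (e2.trans e3.symm)
  change χ (Additive.ofMul (fs π s hs (q' * q) p)) + χ (Additive.ofMul (fs π s hs q' q)) =
    χ (Additive.ofMul (fs π s hs q p)) + χ (Additive.ofMul (fs π s hs q' (q * p)))
  have h := congrArg (fun x => χ (Additive.ofMul x)) key
  simp only [ofMul_mul, map_add] at h
  exact h


section Gen

universe u v u' v'

variable {C : Type u} [Category.{v} C] [Abelian C] [HasExt.{0} C]
  {D : Type u'} [Category.{v'} D] [Abelian D] [HasExt.{0} D]

private theorem splice_map_comp {W X I P Z Y : C} {ι : W ⟶ X} {p : X ⟶ I} {w₁ : ι ≫ p = 0}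
    {j : I ⟶ P} {a : P ⟶ Z} {w₂ : j ≫ a = 0}
    (h₁ : (ShortComplex.mk ι p w₁).ShortExact) (h₂ : (ShortComplex.mk j a w₂).ShortExact)
    (F : C ⥤ D) [F.Additive] [PreservesFiniteLimits F] [PreservesFiniteColimits F]
    (f : W ⟶ Y) (ρ : F.obj X ⟶ F.obj Y) (hf : F.map f = F.map ι ≫ ρ) :
    ((splice h₁ h₂).mapExactFunctor F).comp (Ext.mk₀ (F.map f)) (add_zero 2) = 0 := by
  have hd : (h₁.map_of_exact F).extClass.comp (Ext.mk₀ (F.map ι)) (add_zero 1) = 0 :=
    (h₁.map_of_exact F).extClass_comp
  have e1 : (h₁.map_of_exact F).extClass.comp (Ext.mk₀ (F.map f)) (add_zero 1) = 0 := by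
    have e0 : Ext.mk₀ (F.map f) = (Ext.mk₀ (F.map ι)).comp (Ext.mk₀ ρ) (add_zero 0) := by
      rw [Ext.mk₀_comp_mk₀, hf]
    refine (congrArg (fun x => (h₁.map_of_exact F).extClass.comp x (add_zero 1)) e0).trans ?_
    refine (Ext.comp_assoc (h₁.map_of_exact F).extClass (Ext.mk₀ (F.map ι)) (Ext.mk₀ ρ)
      (add_zero 1) (add_zero 0) (by omega : 1 + 0 + 0 = 1)).symm.trans ?_
    refine (congrArg (fun x => Ext.comp x (Ext.mk₀ ρ) (add_zero 1)) hd).trans ?_
    exact Ext.zero_comp _ _ _ _ _
  unfold splice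
  rw [Ext.mapExactFunctor_comp, Ext.mapExactFunctor_extClass, Ext.mapExactFunctor_extClass]
  refine (Ext.comp_assoc (h₂.map_of_exact F).extClass (h₁.map_of_exact F).extClass
    (Ext.mk₀ (F.map f)) (rfl : 1 + 1 = 2) (add_zero 1) (by omega : 1 + 1 + 0 = 2)).trans ?_
  refine (congrArg (fun x => (h₂.map_of_exact F).extClass.comp x _) e1).trans ?_
  exact Ext.comp_zero _ _ _ _ _

end Gen


/-- The linear map `∑ w_q F(q)`. -/
private def lF {W : Type} [AddCommGroup W] [Module k W] (F : Q → W) :
    (Unit × Q →₀ k) →ₗ[k] W :=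
  Finsupp.lift W k (Unit × Q) (fun x => F x.2)

private theorem lF_single {W : Type} [AddCommGroup W] [Module k W] (F : Q → W) (x : Unit × Q)
    (n : k) : lF (k := k) F (Finsupp.single x n) = n • F x.2 := by
  simp [lF]

private theorem lF_key {B W : Type} [AddCommGroup B] [Module k B] [AddCommGroup W]
    [Module k W] {c : Q → Q → B} (K : Subgroup Q) (θ : B →ₗ[k] W) (F : Q → W)
    (hF : ∀ κ ∈ K, ∀ q : Q, θ (c κ q) + F (κ * q) + F 1 = F q + F κ) {κ : Q} (hκ : κ ∈ K)
    (w : Unit × Q →₀ k) :
    θ (phi (k := k) c κ w) + lF F (frRho k Unit Q κ w) =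
      lF F w + ((aug k Q).hom w : k) • (F κ - F 1) := by
  induction w using Finsupp.induction_linear with
  | zero => simp
  | add f g hf hg =>
    have e1 : (aug k Q).hom (f + g) = (aug k Q).hom f + (aug k Q).hom g := map_add _ _ _
    rw [map_add, e1, map_add, map_add, map_add, map_add]
    have e2 : ((aug k Q).hom f + (aug k Q).hom g : k) • (F κ - F 1) =
      ((aug k Q).hom f : k) • (F κ - F 1) + ((aug k Q).hom g : k) • (F κ - F 1) := add_smul _ _ _
    rw [e2, add_add_add_comm, hf, hg]
    abel
  | single x n =>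
    rw [phi_single, frRho_single, lF_single, lF_single, aug_single, map_smul, ← smul_add,
      ← smul_add]
    congr 1
    have h := hF κ hκ x.2
    change θ (c κ x.2) + F (κ * x.2) = F x.2 + (F κ - F 1)
    rw [← add_sub_assoc, ← h, add_sub_cancel_right]

/-- The equivariant map `D(c) → W` on `K`. -/
private def rhoF {B W : Type} [AddCommGroup B] [Module k B] [AddCommGroup W]
    [Module k W] {c : Q → Q → B} (hc : IsCoc c) (K : Subgroup Q) (θ : B →ₗ[k] W) (F : Q → W)
    (hF : ∀ κ ∈ K, ∀ q : Q, θ (c κ q) + F (κ * q) + F 1 = F q + F κ) :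
    (Rep.resFunctor.{0} (k := k) K.subtype).obj (Dc (k := k) hc) ⟶
      (Rep.resFunctor.{0} (k := k) K.subtype).obj (Rep.trivial k Q W) :=
  Rep.ofHom
    { toLinearMap := θ ∘ₗ LinearMap.fst k B _ +
        (lF F ∘ₗ (LinearMap.ker (aug k Q).hom.toLinearMap).subtype) ∘ₗ LinearMap.snd k B _
      isIntertwining' := by
        intro κ
        apply LinearMap.ext
        rintro ⟨b, w⟩
        have h1 := lF_key (k := k) K θ F hF κ.2 w.1
        have h2 : ((aug k Q).hom w.1 : k) • (F κ - F 1) = 0 := by
          have : (aug k Q).hom w.1 = 0 := w.2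
          rw [this]; exact zero_smul _ _
        rw [h2, add_zero] at h1
        change θ (b + phi (k := k) c κ w.1) + lF F (frRho k Unit Q κ w.1) =
          θ b + lF F w.1
        rw [map_add, add_assoc, h1] }

theorem res_cls_comp_eq_zero {B W : Type} [AddCommGroup B] [Module k B] [AddCommGroup W]
    [Module k W] {c : Q → Q → B} (hc : IsCoc c) (K : Subgroup Q) (θ : B →ₗ[k] W) (F : Q → W)
    (hF : ∀ κ ∈ K, ∀ q : Q, θ (c κ q) + F (κ * q) + F 1 = F q + F κ) :
    Ext.comp ((cls (k := k) hc).mapExactFunctor (Rep.resFunctor.{0} (k := k) K.subtype))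
      (Ext.mk₀ ((Rep.resFunctor.{0} (k := k) K.subtype).map (trivMap (Q := Q) θ)))
      (add_zero 2) = 0 := by
  have hfac : (Rep.resFunctor.{0} (k := k) K.subtype).map (trivMap (Q := Q) θ) =
      (Rep.resFunctor.{0} (k := k) K.subtype).map (dInc (k := k) hc) ≫ rhoF hc K θ F hF := by
    apply Rep.hom_ext
    apply Representation.IntertwiningMap.ext
    apply LinearMap.ext
    intro b
    change θ b = θ b + lF (k := k) F 0
    rw [map_zero, add_zero]
  exact splice_map_comp (dSeq (k := k) hc) (augSeq k Q) (Rep.resFunctor.{0} (k := k) K.subtype)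
    (trivMap (Q := Q) θ) (rhoF hc K θ F hF) hfac

private theorem exists_F' (K : Subgroup G) {W : Type} [AddCommGroup W]
    (ψ : K →* Multiplicative W) :
    ∃ F : G → W, ∀ (κ : K) (g : G), F (κ * g) = (ψ κ).toAdd + F g := by
  have hmem : ∀ g : G,
      g * (Quotient.out (Quotient.mk (QuotientGroup.rightRel K) g))⁻¹ ∈ K := by
    intro g
    have h := Quotient.mk_out (s := QuotientGroup.rightRel K) g
    exact QuotientGroup.rightRel_apply.1 h
  refine ⟨fun g => (ψ ⟨_, hmem g⟩).toAdd, ?_⟩
  intro κ g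
  have h1 : Quotient.mk (QuotientGroup.rightRel K) ((κ : G) * g)
      = Quotient.mk (QuotientGroup.rightRel K) g := by
    apply Quotient.sound
    change (QuotientGroup.rightRel K) _ _
    rw [QuotientGroup.rightRel_apply]
    have : g * ((κ : G) * g)⁻¹ = (κ : G)⁻¹ := by group
    rw [this]
    exact K.inv_mem κ.2
  have h2 : (⟨_, hmem ((κ : G) * g)⟩ : K) = κ * ⟨_, hmem g⟩ := by
    apply Subtype.ext
    change (κ : G) * g * (Quotient.out (Quotient.mk (QuotientGroup.rightRel K) ((κ : G) * g)))⁻¹
      = (κ : G) * (g * (Quotient.out (Quotient.mk (QuotientGroup.rightRel K) g))⁻¹)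
    rw [h1, mul_assoc]
  change (ψ ⟨_, hmem ((κ : G) * g)⟩).toAdd = (ψ κ).toAdd + (ψ ⟨_, hmem g⟩).toAdd
  rw [h2, map_mul]
  rfl

theorem exists_F (π : G →* Q) (s : Q → G) (hs : IsSec π s) (K : Subgroup Q) {W : Type}
    [AddCommGroup W] (ψ : K.comap π →* Multiplicative W) :
    ∃ F : Q → W, ∀ κ ∈ K, ∀ q : Q,
      (ψ ⟨fs π s hs κ q, by
        rw [Subgroup.mem_comap, (fs π s hs κ q).2]; exact K.one_mem⟩).toAdd
        + F (κ * q) + F 1 = F q + F κ := by
  obtain ⟨F', hF'⟩ := exists_F' (K.comap π) ψ
  refine ⟨fun q => F' (s q), ?_⟩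
  intro κ hκ q
  have hm : s κ ∈ K.comap π := by
    rw [Subgroup.mem_comap, hs.sec]
    exact hκ
  have h1 := hF' ⟨s κ, hm⟩ (s q)
  have h2 := hF' ⟨s κ, hm⟩ 1
  have h3 := hF' ⟨fs π s hs κ q, by
        rw [Subgroup.mem_comap, (fs π s hs κ q).2]; exact K.one_mem⟩ (s (κ * q))
  have e : ((fs π s hs κ q : π.ker) : G) * s (κ * q) = s κ * s q := by
    change s κ * s q * (s (κ * q))⁻¹ * s (κ * q) = s κ * s q
    group
  simp only [] at h1 h2 h3
  rw [e] at h3
  rw [mul_one] at h2
  rw [h1] at h3
  simp only [hs.one]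
  rw [← h3, h2]
  abel

private theorem t11_nsmul_comp {C : Type*} [Category* C] [Abelian C] [HasExt.{0} C] {X Y : C} {n : ℕ}
    (N : ℕ) (y : Ext.{0} X Y n) : y.comp (Ext.mk₀ (N • 𝟙 Y)) (add_zero n) = N • y := by
  induction N with
  | zero => rw [zero_smul, zero_smul, Ext.mk₀_zero, Ext.comp_zero]
  | succ N ih => rw [succ_nsmul, succ_nsmul, Ext.mk₀_add, Ext.comp_add, ih, Ext.comp_mk₀_id]

/-- If `c` is divisible by `N` modulo a coboundary on `K`, then the restriction of its class is
divisible by `N`: `W = k/N`, `0 → k → k → k/N → 0` and `Ext.covariant_sequence_exact₂`. -/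
theorem res_cls_dvd (N : ℕ) (hN : ∀ x : k, (N : k) * x = 0 → x = 0) {c : Q → Q → k}
    (hc : IsCoc c) (K : Subgroup Q) (F : Q → k ⧸ Ideal.span {(N : k)})
    (hF : ∀ κ ∈ K, ∀ q : Q, Ideal.Quotient.mk _ (c κ q) + F (κ * q) + F 1 = F q + F κ) :
    ∃ y : Ext.{0} (Zt k K) (Zt k K) 2,
      (cls (k := k) hc).mapExactFunctor (Rep.resFunctor.{0} (k := k) K.subtype) = N • y := by
  let θ : k →ₗ[k] k ⧸ Ideal.span {(N : k)} := (Ideal.span {(N : k)}).mkQ
  have h1 := res_cls_comp_eq_zero hc K θ F hF
  have hw : (N • 𝟙 (Zt k K)) ≫ (trivMap (Q := K) θ) = 0 := by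
    apply Rep.hom_ext
    apply Representation.IntertwiningMap.ext
    apply LinearMap.ext
    intro b
    change Ideal.Quotient.mk (Ideal.span {(N : k)}) (N • b) = 0
    rw [Ideal.Quotient.eq_zero_iff_mem, Ideal.mem_span_singleton]
    exact ⟨b, by rw [nsmul_eq_mul]⟩
  have hS : (ShortComplex.mk (N • 𝟙 (Zt k K)) (trivMap (Q := K) θ) hw).ShortExact := by
    apply shortExact_of
    · intro x y hxy
      have h : N • x = N • y := hxy
      rw [nsmul_eq_mul, nsmul_eq_mul] at h
      have h2 := hN (x - y) (by rw [mul_sub, h, sub_self])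
      exact sub_eq_zero.1 h2
    · intro x
      exact Ideal.Quotient.mk_surjective x
    · intro b hb
      have h : Ideal.Quotient.mk (Ideal.span {(N : k)}) b = 0 := hb
      rw [Ideal.Quotient.eq_zero_iff_mem, Ideal.mem_span_singleton] at h
      obtain ⟨a, ha⟩ := h
      refine ⟨a, ?_⟩
      change N • a = b
      rw [nsmul_eq_mul]
      exact ha.symm
  obtain ⟨y, hy⟩ := Ext.covariant_sequence_exact₂ (Zt k K) hS
    ((cls (k := k) hc).mapExactFunctor (Rep.resFunctor.{0} (k := k) K.subtype)) h1
  refine ⟨y, ?_⟩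
  rw [← hy]
  exact t11_nsmul_comp N y

private theorem zpow_inj {π : G →* Q} {z : G} (hπ : CycExt π z) {a b : ℤ} {x : G}
    (h : z ^ a * x = z ^ b * x) : a = b := by
  have h1 : z ^ a = z ^ b := mul_right_cancel h
  have h2 : z ^ (a - b) = 1 := by rw [zpow_sub, h1, mul_inv_cancel]
  have h3 := hπ.ord _ h2
  omega

/-- In a cyclic central extension every element is `z^j s(π g)` for a unique `j`. -/
theorem CycExt.exists_coord {π : G →* Q} {z : G} (hπ : CycExt π z) {s : Q → G} (hs : IsSec π s) :
    ∃ j : G → ℤ, (∀ g, g = z ^ j g * s (π g)) ∧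
      (∀ g h, j (g * h) = j g + j h + j (s (π g) * s (π h))) ∧ j 1 = 0 ∧
        (∀ g, j (z * g) = j g + 1) := by
  have h1 : ∀ g : G, ∃ n : ℤ, g * (s (π g))⁻¹ = z ^ n := by
    intro g
    apply hπ.ker
    rw [map_mul, map_inv, hs.sec, mul_inv_cancel]
  choose j hj using h1
  have hj' : ∀ g, g = z ^ j g * s (π g) := by
    intro g
    rw [← hj g, inv_mul_cancel_right]
  have hcen : ∀ g : G, Commute z g := hπ.cen
  refine ⟨j, hj', ?_, ?_, ?_⟩
  · intro g h
    apply zpow_inj hπ (x := s (π (g * h)))
    rw [← hj' (g * h)]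
    have e1 : s (π g) * s (π h) = z ^ j (s (π g) * s (π h)) * s (π (g * h)) := by
      conv_lhs => rw [hj' (s (π g) * s (π h))]
      rw [map_mul, hs.sec, hs.sec, ← map_mul]
    have e2 : s (π g) * z ^ j h = z ^ j h * s (π g) := ((hcen (s (π g))).zpow_left (j h)).symm.eq
    calc g * h = z ^ j g * s (π g) * (z ^ j h * s (π h)) := by
          conv_lhs => rw [hj' g, hj' h]
      _ = z ^ j g * (s (π g) * z ^ j h) * s (π h) := by simp only [mul_assoc]
      _ = z ^ j g * z ^ j h * (s (π g) * s (π h)) := by rw [e2]; simp only [mul_assoc]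
      _ = z ^ (j g + j h + j (s (π g) * s (π h))) * s (π (g * h)) := by
          conv_lhs => rw [e1]
          rw [zpow_add, zpow_add]
          simp only [mul_assoc]
  · apply zpow_inj hπ (x := s (π 1))
    rw [← hj' 1, map_one, hs.one, zpow_zero, mul_one]
  · intro g
    apply zpow_inj hπ (x := s (π (z * g)))
    rw [← hj' (z * g), map_mul, hπ.map_z, one_mul, add_comm, zpow_add, zpow_one, mul_assoc, ← hj' g]

namespace RedDc

private theorem zpow_inj {π : G →* Q} {z : G} (hπ : CycExt π z) {a b : ℤ} {x : G}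
    (h : z ^ a * x = z ^ b * x) : a = b := by
  have h1 : z ^ a = z ^ b := mul_right_cancel h
  have h2 : z ^ (a - b) = 1 := by rw [zpow_sub, h1, mul_inv_cancel]
  have h3 := hπ.ord _ h2
  omega

private theorem coord_mul {π : G →* Q} {z : G} (hπ : CycExt π z) {s : Q → G} (hs : IsSec π s)
    {j : G → ℤ} (hj' : ∀ g, g = z ^ j g * s (π g)) (g h : G) :
    j (g * h) = j g + j h + j (s (π g) * s (π h)) := by
  have hcen : ∀ g : G, Commute z g := hπ.cen
  apply zpow_inj hπ (x := s (π (g * h)))
  rw [← hj' (g * h)]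
  have e1 : s (π g) * s (π h) = z ^ j (s (π g) * s (π h)) * s (π (g * h)) := by
    conv_lhs => rw [hj' (s (π g) * s (π h))]
    rw [map_mul, hs.sec, hs.sec, ← map_mul]
  have e2 : s (π g) * z ^ j h = z ^ j h * s (π g) := ((hcen (s (π g))).zpow_left (j h)).symm.eq
  calc g * h = z ^ j g * s (π g) * (z ^ j h * s (π h)) := by
        conv_lhs => rw [hj' g, hj' h]
    _ = z ^ j g * (s (π g) * z ^ j h) * s (π h) := by simp only [mul_assoc]
    _ = z ^ j g * z ^ j h * (s (π g) * s (π h)) := by rw [e2]; simp only [mul_assoc]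
    _ = z ^ (j g + j h + j (s (π g) * s (π h))) * s (π (g * h)) := by
        conv_lhs => rw [e1]
        rw [zpow_add, zpow_add]
        simp only [mul_assoc]

private theorem coord_one {π : G →* Q} {z : G} (hπ : CycExt π z) {s : Q → G} (hs : IsSec π s)
    {j : G → ℤ} (hj' : ∀ g, g = z ^ j g * s (π g)) : j 1 = 0 := by
  apply zpow_inj hπ (x := s (π 1))
  rw [← hj' 1, map_one, hs.one, zpow_zero, mul_one]

private theorem coord_z {π : G →* Q} {z : G} (hπ : CycExt π z) {s : Q → G} (hs : IsSec π s)
    {j : G → ℤ} (hj' : ∀ g, g = z ^ j g * s (π g)) : j z = 1 := by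
  apply zpow_inj hπ (x := s (π z))
  rw [← hj' z, hπ.map_z, hs.one, zpow_one, mul_one]

private theorem coord_s {π : G →* Q} {z : G} (hπ : CycExt π z) {s : Q → G} (hs : IsSec π s)
    {j : G → ℤ} (hj' : ∀ g, g = z ^ j g * s (π g)) (q : Q) : j (s q) = 0 := by
  apply zpow_inj hπ (x := s (π (s q)))
  rw [← hj' (s q), hs.sec, zpow_zero, one_mul]

/-- the linear form `w ↦ ∑ w_g j(g)` -/
def J (k : Type) [CommRing k] (j : G → ℤ) : (Unit × G →₀ k) →ₗ[k] k :=
  Finsupp.lift k k (Unit × G) (fun x => ((j x.2 : ℤ) : k))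

omit [Group G] in
private theorem J_single (j : G → ℤ) (x : Unit × G) (n : k) :
    J k j (Finsupp.single x n) = n * (j x.2 : k) := by
  simp [J]

private theorem aug_frMap (π : G →* Q) (w : Unit × G →₀ k) :
    (aug k Q).hom ((frMap k Unit π).hom w) = (aug k G).hom w := by
  have h : (aug k Q).hom.toLinearMap ∘ₗ (frMap k Unit π).hom.toLinearMap =
      (aug k G).hom.toLinearMap := by
    apply Finsupp.lhom_ext
    intro x n
    change (aug k Q).hom ((frMap k Unit π).hom (Finsupp.single x n)) =
      (aug k G).hom (Finsupp.single x n)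
    rw [frMap_single, aug_single, aug_single]
  exact LinearMap.congr_fun h w

/-- the element `(z ^ n - 1) / (z - 1) * x` -/
private theorem exists_geom (z : G) (x : G) (n : ℤ) : ∃ u : Unit × G →₀ k,
    frRho k Unit G z u - u = Finsupp.single ((), z ^ n * x) 1 - Finsupp.single ((), x) 1 ∧
      (aug k G).hom u = (n : k) := by
  induction n using Int.induction_on with
  | zero =>
    refine ⟨0, ?_, ?_⟩
    · rw [map_zero, sub_self, zpow_zero, one_mul, sub_self]
    · rw [map_zero, Int.cast_zero]
  | succ n ih =>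
    obtain ⟨u, h1, h2⟩ := ih
    refine ⟨u + Finsupp.single ((), z ^ (n : ℤ) * x) 1, ?_, ?_⟩
    · rw [map_add, frRho_single, add_sub_add_comm, h1]
      have e : z * (z ^ (n : ℤ) * x) = z ^ ((n : ℤ) + 1) * x := by
        rw [add_comm, zpow_add, zpow_one, mul_assoc]
      change Finsupp.single ((), z ^ (n : ℤ) * x) 1 - Finsupp.single ((), x) 1 +
        (Finsupp.single ((), z * (z ^ (n : ℤ) * x)) 1 - Finsupp.single ((), z ^ (n : ℤ) * x) 1) = _
      rw [e]
      abel
    · have e : (aug k G).hom (u + Finsupp.single ((), z ^ (n : ℤ) * x) 1) =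
          (aug k G).hom u + (aug k G).hom (Finsupp.single ((), z ^ (n : ℤ) * x) 1) := map_add _ _ _
      rw [e, h2, aug_single, Int.cast_add, Int.cast_one]
  | pred n ih =>
    obtain ⟨u, h1, h2⟩ := ih
    refine ⟨u - Finsupp.single ((), z ^ (-(n : ℤ) - 1) * x) 1, ?_, ?_⟩
    · rw [map_sub, frRho_single, sub_sub_sub_comm, h1]
      have e : z * (z ^ (-(n : ℤ) - 1) * x) = z ^ (-(n : ℤ)) * x := by
        have e1 : (-(n : ℤ)) = 1 + (-(n : ℤ) - 1) := by ring
        conv_rhs => rw [e1, zpow_add, zpow_one, mul_assoc]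
      change Finsupp.single ((), z ^ (-(n : ℤ)) * x) 1 - Finsupp.single ((), x) 1 -
        (Finsupp.single ((), z * (z ^ (-(n : ℤ) - 1) * x)) 1 -
          Finsupp.single ((), z ^ (-(n : ℤ) - 1) * x) 1) = _
      rw [e]
      abel
    · have e : (aug k G).hom (u - Finsupp.single ((), z ^ (-(n : ℤ) - 1) * x) 1) =
          (aug k G).hom u - (aug k G).hom (Finsupp.single ((), z ^ (-(n : ℤ) - 1) * x) 1) :=
        map_sub _ _ _
      rw [e, h2, aug_single, Int.cast_sub, Int.cast_one]

/-- the map induced by the section -/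
def S (k : Type) [CommRing k] (s : Q → G) : (Unit × Q →₀ k) →ₗ[k] (Unit × G →₀ k) :=
  Finsupp.lmapDomain k k (fun x => (x.1, s x.2))

omit [Group G] [Group Q] in
private theorem S_single (s : Q → G) (x : Unit × Q) (n : k) :
    S k s (Finsupp.single x n) = Finsupp.single (x.1, s x.2) n := by
  simp [S, Finsupp.mapDomain_single]

private theorem aug_S (s : Q → G) (v : Unit × Q →₀ k) :
    (aug k G).hom (S k s v) = (aug k Q).hom v := by
  have h : (aug k G).hom.toLinearMap ∘ₗ S k s = (aug k Q).hom.toLinearMap := by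
    apply Finsupp.lhom_ext
    intro x n
    change (aug k G).hom (S k s (Finsupp.single x n)) = (aug k Q).hom (Finsupp.single x n)
    rw [S_single, aug_single, aug_single]
  exact LinearMap.congr_fun h v

omit [Group G] [Group Q] in
private theorem J_S {j : G → ℤ} {s : Q → G} (h0 : ∀ q, j (s q) = 0) (v : Unit × Q →₀ k) :
    J k j (S k s v) = 0 := by
  have h : J k j ∘ₗ S k s = 0 := by
    apply Finsupp.lhom_ext
    intro x n
    change J k j (S k s (Finsupp.single x n)) = 0
    rw [S_single, J_single]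
    change n * (j (s x.2) : k) = 0
    rw [h0, Int.cast_zero, mul_zero]
  exact LinearMap.congr_fun h v

private theorem frMap_S {π : G →* Q} {s : Q → G} (hs : IsSec π s) (v : Unit × Q →₀ k) :
    (frMap k Unit π).hom (S k s v) = v := by
  have h : (frMap k Unit π).hom.toLinearMap ∘ₗ S k s = LinearMap.id := by
    apply Finsupp.lhom_ext
    intro x n
    change (frMap k Unit π).hom (S k s (Finsupp.single x n)) = Finsupp.single x n
    rw [S_single, frMap_single]
    change Finsupp.single (x.1, π (s x.2)) n = Finsupp.single x n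
    rw [hs.sec]
  exact LinearMap.congr_fun h v

/-- The module `D(c)` of the factor set of a cyclic central extension is the reduction of the
augmentation ideal of `G`. -/
theorem red_Dc {π : G →* Q} {z : G} (hπ : CycExt π z) {s : Q → G} (hs : IsSec π s) (j : G → ℤ)
    (hj : ∀ g, g = z ^ j g * s (π g)) {c : Q → Q → k} (hc : IsCoc c)
    (hcj : ∀ q' q, c q' q = (j (s q' * s q) : k)) :
    ∃ p : Iaug k G ⟶ (Rep.resFunctor π).obj (Dc (k := k) hc), Red π z p := by
  -- the formula for the form `J`
  have hJ : ∀ (h : G) (w : Unit × G →₀ k), J k j (frRho k Unit G h w) =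
      (aug k G).hom w * (j h : k) + J k j w + phi (k := k) c (π h) ((frMap k Unit π).hom w) := by
    intro h w
    induction w using Finsupp.induction_linear with
    | zero => simp
    | add f g hf hg =>
      have e1 : (aug k G).hom (f + g) = (aug k G).hom f + (aug k G).hom g := map_add _ _ _
      have e2 : (frMap k Unit π).hom (f + g) =
        (frMap k Unit π).hom f + (frMap k Unit π).hom g := map_add _ _ _
      rw [map_add, map_add, hf, hg, e1, e2, map_add, map_add, add_mul]
      abel
    | single x n =>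
      rw [frRho_single, J_single, aug_single, J_single, frMap_single, phi_single, hcj]
      change n * (j (h * x.2) : k) = _
      rw [coord_mul hπ hs hj h x.2]
      push_cast
      change _ = n * (j h : k) + n * (j x.2 : k) + n * (j (s (π h) * s (π x.2)) : k)
      ring
  have hA : ∀ w : (Iaug k G).V, (frMap k Unit π).hom w.1 ∈
      LinearMap.ker (aug k Q).hom.toLinearMap := by
    intro w
    rw [LinearMap.mem_ker]
    change (aug k Q).hom ((frMap k Unit π).hom w.1) = 0
    rw [aug_frMap]
    exact w.2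
  let P2 : (Iaug k G).V →ₗ[k] (Iaug k Q).V :=
    LinearMap.codRestrict (LinearMap.ker (aug k Q).hom.toLinearMap)
      ((frMap k Unit π).hom.toLinearMap ∘ₗ (LinearMap.ker (aug k G).hom.toLinearMap).subtype) hA
  let P1 : (Iaug k G).V →ₗ[k] k :=
    J k j ∘ₗ (LinearMap.ker (aug k G).hom.toLinearMap).subtype
  let p : Iaug k G ⟶ (Rep.resFunctor π).obj (Dc (k := k) hc) :=
    Rep.ofHom
      { toLinearMap := LinearMap.prod P1 P2
        isIntertwining' := by
          intro h
          apply LinearMap.ext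
          intro w
          have hw : (aug k G).hom w.1 = (0 : k) := w.2
          have h1 := hJ h w.1
          rw [hw, zero_mul, zero_add] at h1
          have h2 : (frMap k Unit π).hom (frRho k Unit G h w.1) =
              frRho k Unit Q (π h) ((frMap k Unit π).hom w.1) :=
            Rep.hom_comm_apply (frMap k Unit π) h w.1
          change (J k j (frRho k Unit G h w.1), _) =
            (J k j w.1 + phi c (π h) ((frMap k Unit π).hom w.1), _)
          rw [h1]
          refine Prod.ext rfl (Subtype.ext ?_)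
          exact h2 }
  have hp : ∀ w : (Iaug k G).V, p.hom w = (J k j w.1, ⟨(frMap k Unit π).hom w.1, hA w⟩) :=
    fun w => rfl
  refine ⟨p, ?_, ?_, ?_⟩
  · rintro ⟨b, v⟩
    have hw : (aug k G).hom (S k s v.1 + (Finsupp.single ((), z) b - Finsupp.single ((), 1) b)) =
        (0 : k) := by
      have e : (aug k G).hom (S k s v.1 + (Finsupp.single ((), z) b - Finsupp.single ((), 1) b)) =
          (aug k G).hom (S k s v.1) + ((aug k G).hom (Finsupp.single ((), z) b) -
            (aug k G).hom (Finsupp.single ((), 1) b)) := by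
        rw [map_add, map_sub]
      have e2 : (aug k Q).hom v.1 = (0 : k) := v.2
      rw [e, aug_S, aug_single, aug_single, sub_self, add_zero]
      exact e2
    refine ⟨⟨S k s v.1 + (Finsupp.single ((), z) b - Finsupp.single ((), 1) b), hw⟩, ?_⟩
    rw [hp]
    refine Prod.ext ?_ (Subtype.ext ?_)
    · change J k j (S k s v.1 + (Finsupp.single ((), z) b - Finsupp.single ((), 1) b)) = b
      rw [map_add, map_sub, J_S (coord_s hπ hs hj), J_single, J_single]
      change 0 + (b * (j z : k) - b * (j 1 : k)) = b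
      rw [coord_z hπ hs hj, coord_one hπ hs hj]
      simp
    · change (frMap k Unit π).hom
        (S k s v.1 + (Finsupp.single ((), z) b - Finsupp.single ((), 1) b)) = v.1
      have e : (frMap k Unit π).hom
          (S k s v.1 + (Finsupp.single ((), z) b - Finsupp.single ((), 1) b)) =
          (frMap k Unit π).hom (S k s v.1) + ((frMap k Unit π).hom (Finsupp.single ((), z) b) -
            (frMap k Unit π).hom (Finsupp.single ((), 1) b)) := by
        rw [map_add, map_sub]
      rw [e, frMap_S hs, frMap_single, frMap_single]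
      change v.1 + (Finsupp.single ((), π z) b - Finsupp.single ((), π 1) b) = v.1
      rw [hπ.map_z, map_one, sub_self, add_zero]
  · intro w hw
    rw [hp] at hw
    have hw1 : J k j w.1 = 0 := congrArg Prod.fst hw
    have hw2 : (frMap k Unit π).hom w.1 = 0 := congrArg (fun x => x.2.1) hw
    choose E hE1 hE2 using fun g : G => exists_geom (k := k) z (s (π g)) (j g)
    let L : (Unit × G →₀ k) →ₗ[k] (Unit × G →₀ k) :=
      Finsupp.lift (Unit × G →₀ k) k (Unit × G) (fun x => E x.2)
    have hL : ∀ (x : Unit × G) (n : k), L (Finsupp.single x n) = n • E x.2 := by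
      intro x n
      simp [L]
    have haug : ∀ u : Unit × G →₀ k, (aug k G).hom (L u) = J k j u := by
      intro u
      have h : (aug k G).hom.toLinearMap ∘ₗ L = J k j := by
        apply Finsupp.lhom_ext
        intro x n
        change (aug k G).hom (L (Finsupp.single x n)) = J k j (Finsupp.single x n)
        have e : (aug k G).hom (n • E x.2) = n * (aug k G).hom (E x.2) := map_smul _ _ _
        rw [hL, e, hE2, J_single]
      exact LinearMap.congr_fun h u
    have hdiff : ∀ u : Unit × G →₀ k, frRho k Unit G z (L u) - L u =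
        u - S k s ((frMap k Unit π).hom u) := by
      intro u
      have h : frRho k Unit G z ∘ₗ L - L =
          LinearMap.id - S k s ∘ₗ (frMap k Unit π).hom.toLinearMap := by
        apply Finsupp.lhom_ext
        intro x n
        change frRho k Unit G z (L (Finsupp.single x n)) - L (Finsupp.single x n) =
          Finsupp.single x n - S k s ((frMap k Unit π).hom (Finsupp.single x n))
        rw [hL, map_smul, ← smul_sub, hE1, ← hj, frMap_single, S_single, smul_sub,
          Finsupp.smul_single, Finsupp.smul_single, smul_eq_mul, mul_one]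
      exact LinearMap.congr_fun h u
    refine ⟨⟨L w.1, ?_⟩, Subtype.ext ?_⟩
    · rw [LinearMap.mem_ker]
      change (aug k G).hom (L w.1) = 0
      rw [haug]
      exact hw1
    · change w.1 = frRho k Unit G z (L w.1) - L w.1
      rw [hdiff, hw2, map_zero, sub_zero]
  · intro y hy
    have h1 := (red_free (k := k) hπ Unit).inj y.1 (congrArg Subtype.val hy)
    exact Subtype.ext h1

end RedDc

end

end Pool.MP0c3001
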