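import Pool.Agent.Lib.MP_0c3001_gt.Basic

/-!
# Ext groups computed with a tower of syzygies and an endomorphism
-/

set_option autoImplicit false

namespace Pool.MP0c3001

open CategoryTheory CategoryTheory.Abelian Limits

noncomputable section

universe u v

variable {C : Type u} [Category.{v} C] [Abelian C] [HasExt.{0} C]

section Tower

variable {A P : ℕ → C} {ι : ∀ n, A (n + 1) ⟶ P n} {p : ∀ n, P n ⟶ A n}
  {w : ∀ n, ι n ≫ p n = 0} (h : ∀ n, (ShortComplex.mk (ι n) (p n) (w n)).ShortExact)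
  (hP : ∀ n, Projective (P n)) (β : ∀ n, A n ⟶ A n) (γ : ∀ n, P n ⟶ P n)
  (h1 : ∀ n, ι n ≫ γ n = β (n + 1) ≫ ι n) (h2 : ∀ n, γ n ≫ p n = p n ≫ β n)

include h hP h1 h2 in
lemma tower (i : ℕ) : ∀ n m : ℕ, n + i = m → ∃ e : Ext.{0} (A n) (A m) i,
    (∀ (V : C) (x : Ext.{0} (A n) V i), ∃ φ : A m ⟶ V, x = e.comp (Ext.mk₀ φ) (add_zero i)) ∧
    (Ext.mk₀ (β n)).comp e (zero_add i) = e.comp (Ext.mk₀ (β m)) (add_zero i) := by
  induction i with
  | zero =>
    rintro n m rfl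
    refine ⟨Ext.mk₀ (𝟙 (A n)), fun V x => ?_, ?_⟩
    · obtain ⟨φ, rfl⟩ := (Ext.mk₀_bijective (A n) V).2 x
      exact ⟨φ, by rw [Ext.mk₀_comp_mk₀]; simp⟩
    · change (Ext.mk₀ (β n)).comp (Ext.mk₀ (𝟙 (A n))) _ =
        (Ext.mk₀ (𝟙 (A n))).comp (Ext.mk₀ (β n)) _
      rw [Ext.mk₀_comp_mk₀, Ext.mk₀_comp_mk₀, Category.comp_id, Category.id_comp]
  | succ i ih =>
    intro n m hm
    obtain ⟨e', he1, he2⟩ := ih (n + 1) m (by omega)
    refine ⟨(h n).extClass.comp e' (add_comm 1 i), fun V x => ?_, ?_⟩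
    · have := hP n
      obtain ⟨y, hy⟩ := Ext.contravariant_sequence_exact₃ (h n) V x
        (Ext.eq_zero_of_projective _) (add_comm 1 i)
      obtain ⟨φ, rfl⟩ := he1 V y
      refine ⟨φ, ?_⟩
      rw [← hy]
      exact (Ext.comp_assoc _ _ _ (add_comm 1 i) (add_zero i) (by omega)).symm
    · let F : ShortComplex.mk (ι n) (p n) (w n) ⟶ ShortComplex.mk (ι n) (p n) (w n) :=
        { τ₁ := β (n + 1), τ₂ := γ n, τ₃ := β n, comm₁₂ := (h1 n).symm, comm₂₃ := h2 n }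
      have hnat := ShortComplex.ShortExact.extClass_naturality (h n) (h n) F
      have hnat' : (h n).extClass.comp (Ext.mk₀ (β (n + 1))) (add_zero 1) =
        (Ext.mk₀ (β n)).comp (h n).extClass (zero_add 1) := hnat
      rw [← Ext.comp_assoc (Ext.mk₀ (β n)) (h n).extClass e' (zero_add 1) (add_comm 1 i)
        (by omega), ← hnat', Ext.comp_assoc (h n).extClass (Ext.mk₀ (β (n + 1))) e' (add_zero 1)
        (zero_add i) (by omega), he2]
      exact (Ext.comp_assoc _ _ _ (add_comm 1 i) (add_zero i) (by omega)).symm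

include h hP h1 h2 in
lemma tower_zero (h0 : β 0 = 𝟙 _) (i : ℕ) (hi : β i = 0) (V : C) (x : Ext.{0} (A 0) V i) :
    x = 0 := by
  obtain ⟨e, he1, he2⟩ := tower h hP β γ h1 h2 i 0 i (zero_add i)
  obtain ⟨φ, rfl⟩ := he1 V x
  have : e = 0 := by
    rw [h0, Ext.mk₀_id_comp, hi, Ext.mk₀_zero, Ext.comp_zero] at he2
    exact he2
  rw [this, Ext.zero_comp]

include h hP h1 h2 in
lemma tower_finite (h0 : β 0 = 𝟙 _) (i : ℕ) (V : C) {W : Type} [AddCommGroup W]
    (hW : Module.Finite ℤ W) (ev : (A i ⟶ V) →+ W) (hev : ∀ φ, ev φ = 0 → β i ≫ φ = 0) :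
    Module.Finite ℤ (Ext.{0} (A 0) V i) := by
  obtain ⟨e, he1, he2⟩ := tower h hP β γ h1 h2 i 0 i (zero_add i)
  rw [h0, Ext.mk₀_id_comp] at he2
  let F : (A i ⟶ V) →+ Ext.{0} (A 0) V i :=
    { toFun := fun φ => e.comp (Ext.mk₀ φ) (add_zero i)
      map_zero' := by rw [Ext.mk₀_zero, Ext.comp_zero]
      map_add' := fun φ ψ => by rw [Ext.mk₀_add, Ext.comp_add] }
  have hF : Function.Surjective F := by
    intro x
    obtain ⟨φ, rfl⟩ := he1 V x
    exact ⟨φ, rfl⟩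
  have hker : ev.toIntLinearMap.ker ≤ F.toIntLinearMap.ker := by
    intro φ hφ
    have h3 : β i ≫ φ = 0 := hev φ hφ
    change e.comp (Ext.mk₀ φ) (add_zero i) = 0
    rw [he2, Ext.comp_assoc _ _ _ (add_zero i) (zero_add 0) (by omega), Ext.mk₀_comp_mk₀, h3,
      Ext.mk₀_zero, Ext.comp_zero]
  have hfin0 : Module.Finite ℤ ev.toIntLinearMap.range :=
    Module.Finite.of_injective (Submodule.subtype _) Subtype.val_injective
  have hfin : Module.Finite ℤ ((A i ⟶ V) ⧸ ev.toIntLinearMap.ker) :=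
    Module.Finite.equiv ev.toIntLinearMap.quotKerEquivRange.symm
  refine Module.Finite.of_surjective (Submodule.liftQ _ F.toIntLinearMap hker) ?_
  intro x
  obtain ⟨φ, rfl⟩ := hF x
  exact ⟨Submodule.Quotient.mk φ, rfl⟩

end Tower

end

end Pool.MP0c3001
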