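import Pool.Agent.Lib.MP_0c3001_gt.FD
import Pool.Agent.Lib.MP_0c3001_gt.Tower
import Pool.Agent.Lib.MP_0c3001_gt.Free
import Pool.Agent.Lib.MP_0c3001_gt.Mg.G004

/-!
# Finitely dominated groups have finite cohomological dimension and finitely generated cohomology
-/

set_option autoImplicit false

namespace Pool.MP0c3001

open CategoryTheory CategoryTheory.Abelian Limits

noncomputable section

variable {k : Type} [CommRing k] {G : Type}

lemma lcone_single (a : G) (l : List G) (c : k) :
    lcone k a (Finsupp.single l c) = Finsupp.single (a :: l) c := by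
  simp [lcone, Finsupp.mapDomain_single]

lemma lbd_single (l : List G) (c : k) : lbd k (Finsupp.single l c) = c • lbdL k l := by
  simp [lbd]

lemma lbd_nil (c : k) : lbd k (Finsupp.single ([] : List G) c) = 0 := by
  rw [lbd_single]; simp [lbdL]

lemma lbd_cone (a : G) (x : List G →₀ k) : lbd k (lcone k a x) = x - lcone k a (lbd k x) := by
  have h : lbd k ∘ₗ lcone k a = LinearMap.id - lcone k a ∘ₗ lbd k := by
    apply Finsupp.lhom_ext
    intro l c
    change lbd k (lcone k a (Finsupp.single l c)) =
      Finsupp.single l c - lcone k a (lbd k (Finsupp.single l c))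
    rw [lcone_single, lbd_single, lbd_single, lbdL, smul_sub, map_smul, Finsupp.smul_single,
      smul_eq_mul, mul_one]
  exact LinearMap.congr_fun h x

/-- Induction principle: linear maps that agree on `[]` and satisfy the same recursion. -/
lemma lbd_lbdL (l : List G) : lbd k (lbdL k l) = 0 := by
  induction l with
  | nil => simp [lbdL]
  | cons a l ih =>
    rw [lbdL, map_sub, lbd_cone, ih, map_zero, sub_zero, lbd_single, one_smul, sub_self]

lemma lbd_lbd (x : List G →₀ k) : lbd k (lbd k x) = 0 := by
  have h : lbd k ∘ₗ lbd k (G := G) = 0 := by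
    apply Finsupp.lhom_ext
    intro l c
    change lbd k (lbd k (Finsupp.single l c)) = 0
    rw [lbd_single, map_smul, lbd_lbdL, smul_zero]
  exact LinearMap.congr_fun h x

section Grp

variable [Group G]

lemma lact_single (g : G) (l : List G) (c : k) :
    lact k g (Finsupp.single l c) = Finsupp.single (l.map (g * ·)) c := by
  simp [lact, Finsupp.mapDomain_single]

lemma lact_cone (g a : G) (x : List G →₀ k) :
    lact k g (lcone k a x) = lcone k (g * a) (lact k g x) := by
  have h : lact k g ∘ₗ lcone k a = lcone k (g * a) ∘ₗ lact k g := by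
    apply Finsupp.lhom_ext
    intro l c
    change lact k g (lcone k a (Finsupp.single l c)) =
      lcone k (g * a) (lact k g (Finsupp.single l c))
    rw [lcone_single, lact_single, lact_single, lcone_single, List.map_cons]
  exact LinearMap.congr_fun h x

lemma lact_lbdL (g : G) (l : List G) : lact k g (lbdL k l) = lbdL k (l.map (g * ·)) := by
  induction l with
  | nil => simp [lbdL]
  | cons a l ih =>
    rw [lbdL, map_sub, lact_cone, ih, lact_single, List.map_cons, lbdL]

lemma lact_lbd (g : G) (x : List G →₀ k) : lact k g (lbd k x) = lbd k (lact k g x) := by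
  have h : lact k g ∘ₗ lbd k = lbd k ∘ₗ lact k g := by
    apply Finsupp.lhom_ext
    intro l c
    change lact k g (lbd k (Finsupp.single l c)) = lbd k (lact k g (Finsupp.single l c))
    rw [lbd_single, lact_single, lbd_single, map_smul, lact_lbdL]
  exact LinearMap.congr_fun h x

variable (k G) in
/-- The representation on all lists. -/
def lRho : Representation k G (List G →₀ k) where
  toFun g := lact k g
  map_one' := by
    apply Finsupp.lhom_ext
    intro l c
    rw [lact_single]
    simp
  map_mul' g h := by
    apply Finsupp.lhom_ext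
    intro l c
    change _ = lact k g (lact k h (Finsupp.single l c))
    rw [lact_single, lact_single, lact_single, List.map_map]
    congr 2
    funext x
    simp [mul_assoc]

variable (k G) in
/-- All lists. -/
abbrev LL : Rep.{0} k G := Rep.of (lRho k G)

variable (k G) in
/-- Chains of lists of length `n`. -/
def lsup (n : ℕ) : Submodule k (List G →₀ k) := Finsupp.supported k k {l | l.length = n}

lemma single_mem_lsup {n : ℕ} {l : List G} (hl : l.length = n) (c : k) :
    Finsupp.single l c ∈ lsup k G n := Finsupp.single_mem_supported k c hl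

lemma lsup_induction {n : ℕ} {p : (List G →₀ k) → Prop} (x : List G →₀ k) (hx : x ∈ lsup k G n)
    (h0 : p 0) (hadd : ∀ x y, p x → p y → p (x + y))
    (hs : ∀ l : List G, l.length = n → ∀ c : k, p (Finsupp.single l c)) : p x := by
  classical
  have hx' : x = ∑ l ∈ x.support, Finsupp.single l (x l) := (Finsupp.sum_single x).symm
  rw [hx']
  have hsup : ∀ l ∈ x.support, l.length = n := fun l hl => hx hl
  revert hsup
  generalize x.support = S
  intro hsup
  induction S using Finset.induction_on with
  | empty => simpa using h0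
  | insert a S ha ih =>
    rw [Finset.sum_insert ha]
    exact hadd _ _ (hs a (hsup a (Finset.mem_insert_self _ _)) _)
      (ih (fun l hl => hsup l (Finset.mem_insert_of_mem hl)))

lemma lcone_mem {n : ℕ} (a : G) {x : List G →₀ k} (hx : x ∈ lsup k G n) :
    lcone k a x ∈ lsup k G (n + 1) := by
  refine lsup_induction (p := fun x => lcone k a x ∈ lsup k G (n + 1)) x hx ?_ ?_ ?_
  · rw [map_zero]; exact Submodule.zero_mem _
  · intro x y h1 h2; rw [map_add]; exact Submodule.add_mem _ h1 h2
  · intro l hl c
    rw [lcone_single]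
    exact single_mem_lsup (by simp [hl]) c

lemma lact_mem {n : ℕ} (g : G) {x : List G →₀ k} (hx : x ∈ lsup k G n) :
    lact k g x ∈ lsup k G n := by
  refine lsup_induction (p := fun x => lact k g x ∈ lsup k G n) x hx ?_ ?_ ?_
  · rw [map_zero]; exact Submodule.zero_mem _
  · intro x y h1 h2; rw [map_add]; exact Submodule.add_mem _ h1 h2
  · intro l hl c
    rw [lact_single]
    exact single_mem_lsup (by simp [hl]) c

lemma lbdL_mem (l : List G) (n : ℕ) (hl : l.length = n + 1) : lbdL k l ∈ lsup k G n := by
  induction l generalizing n with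
  | nil => simp at hl
  | cons a l ih =>
    rw [lbdL]
    have hl' : l.length = n := by simpa using hl
    refine Submodule.sub_mem _ (single_mem_lsup hl' _) ?_
    cases n with
    | zero =>
      have : l = [] := List.length_eq_zero_iff.1 hl'
      subst this
      rw [lbdL, map_zero]; exact Submodule.zero_mem _
    | succ n => exact lcone_mem a (ih n hl')

lemma lbd_mem {n : ℕ} {x : List G →₀ k} (hx : x ∈ lsup k G (n + 1)) :
    lbd k x ∈ lsup k G n := by
  refine lsup_induction (p := fun x => lbd k x ∈ lsup k G n) x hx ?_ ?_ ?_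
  · rw [map_zero]; exact Submodule.zero_mem _
  · intro x y h1 h2; rw [map_add]; exact Submodule.add_mem _ h1 h2
  · intro l hl c
    rw [lbd_single]
    exact Submodule.smul_mem _ _ (lbdL_mem l n hl)

lemma lbd_zero {x : List G →₀ k} (hx : x ∈ lsup k G 0) : lbd k x = 0 := by
  refine lsup_induction (p := fun x => lbd k x = 0) x hx ?_ ?_ ?_
  · rw [map_zero]
  · intro x y h1 h2; rw [map_add, h1, h2, add_zero]
  · intro l hl c
    have : l = [] := List.length_eq_zero_iff.1 hl
    subst this
    exact lbd_nil c

variable (k G) in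
/-- The chains of lists of length `n + 1`. -/
abbrev LP (n : ℕ) : Rep.{0} k G :=
  Rep.subrepresentation (LL k G) (lsup k G (n + 1)) (fun g _ hx => lact_mem g hx)

variable (k G) in
/-- The cycles of lists of length `n`. -/
abbrev LA (n : ℕ) : Rep.{0} k G :=
  Rep.subrepresentation (LL k G) (lsup k G n ⊓ LinearMap.ker (lbd k)) (fun g x hx =>
    ⟨lact_mem g hx.1, by
      change lbd k (lact k g x) = 0
      rw [← lact_lbd]
      have : lbd k x = 0 := hx.2
      rw [this, map_zero]⟩)

variable (k G) in
/-- Inclusion of the cycles. -/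
def lι (n : ℕ) : LA k G (n + 1) ⟶ LP k G n :=
  Rep.ofHom
    { toLinearMap := Submodule.inclusion inf_le_left
      isIntertwining' := fun g => rfl }

variable (k G) in
/-- The boundary map onto the cycles. -/
def lp (n : ℕ) : LP k G n ⟶ LA k G n :=
  Rep.ofHom
    { toLinearMap := (lbd k).restrict (p := lsup k G (n + 1))
        (q := lsup k G n ⊓ LinearMap.ker (lbd k)) (fun x hx => ⟨lbd_mem hx, lbd_lbd x⟩)
      isIntertwining' := fun g => by
        apply LinearMap.ext
        intro x
        apply Subtype.ext
        exact (lact_lbd g x.1).symm }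

lemma lι_apply (n : ℕ) (x : (LA k G (n + 1)).V) : ((lι k G n).hom x).1 = x.1 := rfl

lemma lp_apply (n : ℕ) (x : (LP k G n).V) : ((lp k G n).hom x).1 = lbd k x.1 := rfl

lemma lw (n : ℕ) : lι k G n ≫ lp k G n = 0 := by
  apply Rep.hom_ext
  apply Representation.IntertwiningMap.ext
  apply LinearMap.ext
  intro x
  apply Subtype.ext
  exact x.2.2

theorem lexact (n : ℕ) : (ShortComplex.mk (lι k G n) (lp k G n) (lw n)).ShortExact := by
  refine shortExact_of _ _ _ ?_ ?_ ?_
  · intro x y hxy
    have h := congrArg (fun z : (LP k G n).V => z.1) hxy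
    exact Subtype.ext h
  · intro z
    refine ⟨⟨lcone k 1 z.1, lcone_mem 1 z.2.1⟩, ?_⟩
    apply Subtype.ext
    rw [lp_apply]
    have h1 : lbd k z.1 = 0 := z.2.2
    change lbd k (lcone k 1 z.1) = z.1
    rw [lbd_cone, h1, map_zero, sub_zero]
  · intro b hb
    exact ⟨⟨b.1, b.2, congrArg Subtype.val hb⟩, rfl⟩

variable (k G) in
/-- The projection of all chains onto the chains of lists of length `n + 1`. -/
def lproj (n : ℕ) : LL k G ⟶ LP k G n :=
  Rep.ofHom
    { toLinearMap := Finsupp.restrictDom k k {l : List G | l.length = n + 1}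
      isIntertwining' := fun g => by
        apply Finsupp.lhom_ext
        intro l c
        apply Subtype.ext
        change (Finsupp.restrictDom k k {l : List G | l.length = n + 1}
          (lact k g (Finsupp.single l c))).1 =
          lact k g (Finsupp.restrictDom k k {l : List G | l.length = n + 1}
            (Finsupp.single l c)).1
        rw [lact_single, Finsupp.restrictDom_apply, Finsupp.restrictDom_apply]
        by_cases hl : l.length = n + 1
        · rw [Finsupp.filter_single_of_pos, Finsupp.filter_single_of_pos, lact_single]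
          · exact hl
          · simpa using hl
        · rw [Finsupp.filter_single_of_neg, Finsupp.filter_single_of_neg, map_zero]
          · exact hl
          · simpa using hl }

lemma lproj_apply {n : ℕ} (x : (LP k G n).V) : (lproj k G n).hom x.1 = x := by
  apply Subtype.ext
  change (Finsupp.restrictDom k k {l : List G | l.length = n + 1} x.1).1 = x.1
  rw [Finsupp.restrictDom_apply]
  apply Finsupp.filter_eq_self_iff _ _ |>.2
  intro l hl
  exact x.2 (Finsupp.mem_support_iff.2 hl)

/-- The map to the free representation. -/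
def lfr : LL k G ⟶ Fr k (List G) G :=
  Rep.ofHom
    { toLinearMap := Finsupp.lift (List G × G →₀ k) k (List G) (fun l => match l with
        | [] => 0
        | a :: l => Finsupp.single (l.map (a⁻¹ * ·), a) 1)
      isIntertwining' := fun g => by
        apply Finsupp.lhom_ext
        intro l c
        change Finsupp.lift (List G × G →₀ k) k (List G) _ (lact k g (Finsupp.single l c)) =
          frRho k (List G) G g (Finsupp.lift (List G × G →₀ k) k (List G) _ (Finsupp.single l c))
        rw [lact_single]
        cases l with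
        | nil => simp
        | cons a l => simp [Function.comp_def, mul_assoc] }

lemma lfr_single (a : G) (l : List G) (c : k) :
    (lfr (k := k)).hom (Finsupp.single (a :: l) c) = Finsupp.single (l.map (a⁻¹ * ·), a) c := by
  change Finsupp.lift (List G × G →₀ k) k (List G) _ (Finsupp.single (a :: l) c) = _
  simp

lemma lfr_lift (x : List G →₀ k) (n : ℕ) (hx : x ∈ lsup k G (n + 1)) :
    (frLift (LL k G) (fun l : List G => Finsupp.single (1 :: l) 1)).hom ((lfr (k := k)).hom x)
      = x := by
  refine lsup_induction (p := fun x => (frLift (LL k G) (fun l : List G =>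
    Finsupp.single (1 :: l) 1)).hom ((lfr (k := k)).hom x) = x) x hx ?_ ?_ ?_
  · rw [map_zero, map_zero]
  · intro x y h1 h2; rw [map_add, map_add, h1, h2]
  · intro l hl c
    cases l with
    | nil => simp at hl
    | cons a l =>
      rw [lfr_single, frLift_single]
      change c • lact k a (Finsupp.single (1 :: l.map (a⁻¹ * ·)) 1) = _
      rw [lact_single]
      simp [Function.comp_def]

theorem lproj_projective (n : ℕ) : Projective (LP k G n) := by
  let i : LP k G n ⟶ Fr k (List G) G := Rep.subtype (LL k G) _ _ ≫ lfr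
  let r : Fr k (List G) G ⟶ LP k G n :=
    frLift (LL k G) (fun l : List G => Finsupp.single (1 :: l) 1) ≫ lproj k G n
  have hir : i ≫ r = 𝟙 _ := by
    apply Rep.hom_ext
    apply Representation.IntertwiningMap.ext
    apply LinearMap.ext
    intro x
    change (lproj k G n).hom ((frLift (LL k G) (fun l : List G => Finsupp.single (1 :: l) 1)).hom
      ((lfr (k := k)).hom x.1)) = x
    rw [lfr_lift x.1 n x.2, lproj_apply]
  exact Retract.projective { i := i, r := r, retract := hir }

section IsFD

variable {b : (List G →₀ k) →ₗ[k] (List G →₀ k)} {Z : Finset (List G)} (hb : IsFD k G b Z)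

include hb in
lemma IsFD.mem {n : ℕ} {x : List G →₀ k} (hx : x ∈ lsup k G n) : b x ∈ lsup k G n := by
  refine lsup_induction (p := fun x => b x ∈ lsup k G n) x hx ?_ ?_ ?_
  · rw [map_zero]; exact Submodule.zero_mem _
  · intro x y h1 h2; rw [map_add]; exact Submodule.add_mem _ h1 h2
  · intro l hl c
    have h1 : Finsupp.single l c = c • Finsupp.single l (1 : k) := by
      rw [Finsupp.smul_single, smul_eq_mul, mul_one]
    rw [h1, map_smul]
    refine Submodule.smul_mem _ _ ?_
    intro l' hl'
    exact (hb.length l l' hl').trans hl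

/-- The endomorphism of the cycles. -/
def fβ (n : ℕ) : LA k G n ⟶ LA k G n :=
  Rep.ofHom
    { toLinearMap := b.restrict (p := lsup k G n ⊓ LinearMap.ker (lbd k))
        (q := lsup k G n ⊓ LinearMap.ker (lbd k)) (fun x hx => ⟨hb.mem hx.1, by
          change lbd k (b x) = 0
          have : lbd k x = 0 := hx.2
          rw [hb.bd, this, map_zero]⟩)
      isIntertwining' := fun g => by
        apply LinearMap.ext
        intro x
        apply Subtype.ext
        exact hb.equiv g x.1 }

/-- The endomorphism of the chains. -/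
def fγ (n : ℕ) : LP k G n ⟶ LP k G n :=
  Rep.ofHom
    { toLinearMap := b.restrict (p := lsup k G (n + 1)) (q := lsup k G (n + 1))
        (fun _ hx => hb.mem hx)
      isIntertwining' := fun g => by
        apply LinearMap.ext
        intro x
        apply Subtype.ext
        exact hb.equiv g x.1 }

lemma fβ_apply (n : ℕ) (x : (LA k G n).V) : ((fβ hb n).hom x).1 = b x.1 := rfl

lemma fγ_apply (n : ℕ) (x : (LP k G n).V) : ((fγ hb n).hom x).1 = b x.1 := rfl

lemma f_comm1 (n : ℕ) : lι k G n ≫ fγ hb n = fβ hb (n + 1) ≫ lι k G n := rfl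

lemma f_comm2 (n : ℕ) : fγ hb n ≫ lp k G n = lp k G n ≫ fβ hb n := by
  apply Rep.hom_ext
  apply Representation.IntertwiningMap.ext
  apply LinearMap.ext
  intro x
  apply Subtype.ext
  exact hb.bd x.1

lemma fβ_zero : fβ hb 0 = 𝟙 _ := by
  apply Rep.hom_ext
  apply Representation.IntertwiningMap.ext
  apply LinearMap.ext
  intro x
  apply Subtype.ext
  change b x.1 = x.1
  refine lsup_induction (p := fun x => b x = x) x.1 x.2.1 ?_ ?_ ?_
  · rw [map_zero]
  · intro x y h1 h2; rw [map_add, h1, h2]
  · intro l hl c
    have : l = [] := List.length_eq_zero_iff.1 hl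
    subst this
    have h1 : Finsupp.single ([] : List G) c = c • Finsupp.single ([] : List G) (1 : k) := by
      rw [Finsupp.smul_single, smul_eq_mul, mul_one]
    rw [h1, map_smul, hb.nil]

lemma fβ_eq_zero (n : ℕ) (hn : ∀ z ∈ Z, z.length < n) : fβ hb n = 0 := by
  apply Rep.hom_ext
  apply Representation.IntertwiningMap.ext
  apply LinearMap.ext
  intro x
  apply Subtype.ext
  change b x.1 = 0
  refine lsup_induction (p := fun x => b x = 0) x.1 x.2.1 ?_ ?_ ?_
  · rw [map_zero]
  · intro x y h1 h2; rw [map_add, h1, h2, add_zero]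
  · intro l hl c
    have h1 : Finsupp.single l c = c • Finsupp.single l (1 : k) := by
      rw [Finsupp.smul_single, smul_eq_mul, mul_one]
    have h2 : b (Finsupp.single l 1) = 0 := by
      rw [← Finsupp.support_eq_empty, Finset.eq_empty_iff_forall_notMem]
      intro l' hl'
      obtain ⟨g, z, hz, rfl⟩ := hb.orbits l l' hl'
      have h3 := hb.length l _ hl'
      rw [List.length_map] at h3
      have := hn z hz
      omega
    rw [h1, map_smul, h2, smul_zero]

include hb in
lemma b_comp_eq_zero (n : ℕ) {V : Rep.{0} k G} (Ψ : LL k G ⟶ V)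
    (h : ∀ z ∈ Z, Ψ.hom (Finsupp.single z (1 : k)) = 0) (x : List G →₀ k) :
    Ψ.hom (b x) = 0 := by
  have h1 : Ψ.hom.toLinearMap ∘ₗ b = 0 := by
    apply Finsupp.lhom_ext
    intro l c
    have h1 : Finsupp.single l c = c • Finsupp.single l (1 : k) := by
      rw [Finsupp.smul_single, smul_eq_mul, mul_one]
    change Ψ.hom (b (Finsupp.single l c)) = 0
    rw [h1, map_smul, map_smul]
    have h2 : b (Finsupp.single l 1) = ∑ l' ∈ (b (Finsupp.single l 1)).support,
      Finsupp.single l' (b (Finsupp.single l 1) l') := (Finsupp.sum_single _).symm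
    rw [h2, map_sum, Finset.sum_eq_zero, smul_zero]
    intro l' hl'
    obtain ⟨g, z, hz, hz'⟩ := hb.orbits l l' hl'
    have h3 : Finsupp.single l' (b (Finsupp.single l 1) l') =
        (b (Finsupp.single l 1) l') • lact k g (Finsupp.single z (1 : k)) := by
      rw [lact_single, Finsupp.smul_single, smul_eq_mul, mul_one, hz']
    have h4 : Ψ.hom (lact k g (Finsupp.single z (1 : k))) =
      V.ρ g (Ψ.hom (Finsupp.single z (1 : k))) := Rep.hom_comm_apply Ψ g _
    rw [h3, map_smul, h4, h z hz, map_zero, smul_zero]
  exact LinearMap.congr_fun h1 x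

/-- Evaluation of a cocycle on the finitely many lists in `Z`. -/
def fev (Z : Finset (List G)) (n : ℕ) (V : Rep.{0} k G) : (LA k G n ⟶ V) →+ (Z → V.V) where
  toFun φ z := (lproj k G n ≫ lp k G n ≫ φ).hom (Finsupp.single z.1 (1 : k))
  map_zero' := rfl
  map_add' _ _ := rfl

lemma fev_eq_zero (n : ℕ) (V : Rep.{0} k G) (φ : LA k G n ⟶ V) (h : fev Z n V φ = 0) :
    fβ hb n ≫ φ = 0 := by
  have h1 : ∀ x : List G →₀ k, (lproj k G n ≫ lp k G n ≫ φ).hom (b x) = 0 :=
    b_comp_eq_zero hb n _ (fun z hz => congrFun h ⟨z, hz⟩)
  apply Rep.hom_ext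
  apply Representation.IntertwiningMap.ext
  apply LinearMap.ext
  intro x
  have h2 : lbd k x.1 = 0 := x.2.2
  have h3 := h1 (lcone k 1 x.1)
  have h4 : b (lcone k 1 x.1) ∈ lsup k G (n + 1) := hb.mem (lcone_mem 1 x.2.1)
  have h5 : (lproj k G n).hom (b (lcone k 1 x.1)) = ⟨b (lcone k 1 x.1), h4⟩ :=
    lproj_apply (⟨b (lcone k 1 x.1), h4⟩ : (LP k G n).V)
  have h6 : (lp k G n).hom (⟨b (lcone k 1 x.1), h4⟩ : (LP k G n).V) = (fβ hb n).hom x := by
    apply Subtype.ext
    rw [lp_apply, fβ_apply]
    change lbd k (b (lcone k 1 x.1)) = b x.1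
    rw [hb.bd, lbd_cone, h2, map_zero, sub_zero]
  change φ.hom ((fβ hb n).hom x) = 0
  rw [← h6, ← h5]
  exact h3

end IsFD

variable (k G) in
/-- The chains of length `0` are the trivial module. -/
def lzero : LA k G 0 ⟶ Zt k G :=
  Rep.ofHom
    { toLinearMap := Finsupp.lapply ([] : List G) ∘ₗ (Submodule.subtype _)
      isIntertwining' := fun g => by
        apply LinearMap.ext
        intro x
        change (lact k g x.1) [] = x.1 []
        refine lsup_induction (p := fun x => (lact k g x) [] = x []) x.1 x.2.1 ?_ ?_ ?_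
        · rw [map_zero]
        · intro x y h1 h2; rw [map_add, Finsupp.add_apply, Finsupp.add_apply, h1, h2]
        · intro l hl c
          have : l = [] := List.length_eq_zero_iff.1 hl
          subst this
          rw [lact_single]; rfl }

variable (k G) in
/-- The inverse of `lzero`. -/
def lzeroInv : Zt k G ⟶ LA k G 0 :=
  Rep.ofHom
    { toLinearMap := LinearMap.codRestrict _ (Finsupp.lsingle ([] : List G)) (fun c =>
        ⟨single_mem_lsup rfl c, lbd_nil c⟩)
      isIntertwining' := fun g => by
        apply LinearMap.ext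
        intro x
        apply Subtype.ext
        change Finsupp.single [] x = lact k g (Finsupp.single [] x)
        rw [lact_single]; rfl }

lemma lzeroInv_lzero : lzeroInv k G ≫ lzero k G = 𝟙 _ := by
  apply Rep.hom_ext
  apply Representation.IntertwiningMap.ext
  apply LinearMap.ext
  intro x
  change (Finsupp.single ([] : List G) x) [] = x
  simp

theorem FD.kills (h : FD k G) : ∃ n, Kills k G 1 (n + 1) := by
  obtain ⟨b, Z, hb⟩ := h
  refine ⟨Z.sup List.length, ?_⟩
  intro V i hi x
  have h1 := tower_zero lexact lproj_projective (fβ hb) (fγ hb) (f_comm1 hb) (f_comm2 hb)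
    (fβ_zero hb) i (fβ_eq_zero hb i (fun z hz => by
      have : z.length ≤ Z.sup List.length := Finset.le_sup (f := List.length) hz
      omega)) V ((Ext.mk₀ (lzero k G)).comp x (zero_add i))
  have h2 : x = (Ext.mk₀ (lzeroInv k G)).comp ((Ext.mk₀ (lzero k G)).comp x (zero_add i))
      (zero_add i) := by
    rw [← Ext.comp_assoc (Ext.mk₀ (lzeroInv k G)) (Ext.mk₀ (lzero k G)) x (zero_add 0)
      (zero_add i) (by omega), Ext.mk₀_comp_mk₀, lzeroInv_lzero, Ext.mk₀_id_comp]
  rw [h2, h1, Ext.comp_zero, smul_zero]

theorem FD.fgCoh (hk : Function.Bijective (Int.cast : ℤ → k)) (h : FD k G) : FgCoh k G := by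
  obtain ⟨b, Z, hb⟩ := h
  intro V hV i
  have hV' : Module.Finite ℤ V.V := int_finite_of_finite hk V.V hV
  have h1 : Module.Finite ℤ (Ext.{0} (LA k G 0) V i) :=
    tower_finite lexact lproj_projective (fβ hb) (fγ hb) (f_comm1 hb) (f_comm2 hb)
      (fβ_zero hb) i V (W := Z → V.V) inferInstance (fev Z i V)
      (fun φ hφ => fev_eq_zero hb i V φ hφ)
  refine Module.Finite.of_injective
    ((Ext.mk₀ (lzero k G)).precomp V (zero_add i)).toIntLinearMap ?_
  intro x y hxy
  have h2 : ∀ x : HH k G V i, x = (Ext.mk₀ (lzeroInv k G)).comp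
      ((Ext.mk₀ (lzero k G)).comp x (zero_add i)) (zero_add i) := by
    intro x
    rw [← Ext.comp_assoc (Ext.mk₀ (lzeroInv k G)) (Ext.mk₀ (lzero k G)) x (zero_add 0)
      (zero_add i) (by omega), Ext.mk₀_comp_mk₀, lzeroInv_lzero, Ext.mk₀_id_comp]
  have h3 : (Ext.mk₀ (lzero k G)).comp x (zero_add i) =
    (Ext.mk₀ (lzero k G)).comp y (zero_add i) := hxy
  rw [h2 x, h2 y, h3]

end Grp

end

end Pool.MP0c3001
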