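import Pool.Agent.Lib.MP_0c3001_gt.Mg.G007

/-!
# Groups of type FP

`TypeFP k G`: the trivial representation has a projective resolution of finite length by finitely
generated representations.
-/

set_option autoImplicit false

namespace Pool.MP0c3001

open CategoryTheory CategoryTheory.Abelian Limits
open scoped MonoidAlgebra

noncomputable section

/-- `G` is of type FP over `k`: the trivial representation `k` of `G` has a resolution
`0 → P_n → ⋯ → P_0 → k → 0` of finite length by projective representations `P_i` that are finitely
generated as modules over the group algebra `k[G]`. -/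
def TypeFP (k : Type) [CommRing k] (G : Type) [Group G] : Prop :=
  ∃ P : ProjectiveResolution (Rep.trivial.{0} k G k),
    (∀ i : ℕ, Module.Finite (MonoidAlgebra k G) (P.complex.X i).ρ.asModule) ∧
      ∃ n : ℕ, ∀ i : ℕ, n < i → IsZero (P.complex.X i)

variable {k : Type} [CommRing k] {G : Type} [Group G]

lemma rep_hom_finite (hk : Function.Bijective (Int.cast : ℤ → k)) (P V : Rep.{0} k G)
    (hP : Module.Finite (MonoidAlgebra k G) P.ρ.asModule) (hV : Module.Finite k V.V) :
    Module.Finite ℤ (P ⟶ V) := by
  obtain ⟨S, hS⟩ := hP.fg_top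
  let ev : (P ⟶ V) →+ (S → V.V) :=
    { toFun := fun f s => f.hom ((s : P.ρ.asModule) : P.V)
      map_zero' := rfl
      map_add' := fun _ _ => rfl }
  have hinj : Function.Injective ev := by
    intro f g hfg
    apply Rep.hom_ext
    apply Representation.IntertwiningMap.ext
    apply LinearMap.ext
    intro x
    let F := Representation.IntertwiningMap.equivLinearMapAsModule P.ρ V.ρ f.hom
    let F' := Representation.IntertwiningMap.equivLinearMapAsModule P.ρ V.ρ g.hom
    have h : F = F' := by
      apply LinearMap.ext_on (s := (S : Set P.ρ.asModule))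
      · exact hS
      · intro s hs
        exact congrFun hfg ⟨s, hs⟩
    exact LinearMap.congr_fun h x
  have h1 : Module.Finite ℤ V.V := int_finite_of_finite hk V.V hV
  have h2 : Module.Finite ℤ (S → V.V) := inferInstance
  exact Module.Finite.of_injective ev.toIntLinearMap hinj

theorem TypeFP.kills_fgCoh (hk : Function.Bijective (Int.cast : ℤ → k)) (h : TypeFP k G) :
    ∃ n : ℕ, Kills k G 1 (n + 1) ∧ FgCoh k G := by
  obtain ⟨P, hfg, n, hn⟩ := h
  refine ⟨n, ?_, ?_⟩
  · intro V i hi x
    obtain ⟨f, hf, rfl⟩ := P.extMk_surjective x (i + 1) rfl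
    have h0 : f = 0 := (hn i (by omega)).eq_of_src _ _
    subst h0
    rw [P.extMk_zero (i + 1) rfl, smul_zero]
  · intro V hV i
    have h1 : Module.Finite ℤ (P.complex.X i ⟶ V) := rep_hom_finite hk _ V (hfg i) hV
    let K : AddSubgroup (P.complex.X i ⟶ V) :=
      { carrier := {f | P.complex.d (i + 1) i ≫ f = 0}
        zero_mem' := by simp
        add_mem' := fun {a b} ha hb => by
          change P.complex.d (i + 1) i ≫ (a + b) = 0
          rw [Preadditive.comp_add, ha, hb, add_zero]
        neg_mem' := fun {a} ha => by
          change P.complex.d (i + 1) i ≫ (-a) = 0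
          rw [Preadditive.comp_neg, ha, neg_zero] }
    have h2 : Module.Finite ℤ K :=
      Module.Finite.of_injective K.subtype.toIntLinearMap Subtype.val_injective
    let F : K →+ HH k G V i :=
      { toFun := fun f => P.extMk f.1 (i + 1) rfl f.2
        map_zero' := P.extMk_zero (i + 1) rfl
        map_add' := fun f g => (P.add_extMk f.1 g.1 (i + 1) rfl f.2 g.2).symm }
    have hF : Function.Surjective F := by
      intro x
      obtain ⟨f, hf, rfl⟩ := P.extMk_surjective x (i + 1) rfl
      exact ⟨⟨f, hf⟩, rfl⟩
    exact Module.Finite.of_surjective F.toIntLinearMap hF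

theorem center_fg_of_typeFP (h : TypeFP ℤ G) (C : Subgroup G)
    (hC : C ≤ Subgroup.center G)
    (hres : ∀ c ∈ C, (∀ H : Subgroup G, H.FiniteIndex → c ∈ H) → c = 1) : C.FG := by
  have hk : Function.Bijective (Int.cast : ℤ → ℤ) := by
    have : (Int.cast : ℤ → ℤ) = id := by funext x; simp
    rw [this]; exact Function.bijective_id
  obtain ⟨n, h1, h2⟩ := h.kills_fgCoh hk
  exact center_fg hk n h1 h2 C hC hres

end

end Pool.MP0c3001
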