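import Pool.Agent.Lib.MP_0c3001_gt.FDExt
import Pool.Agent.Lib.MP_0c3001_gt.TypeFP

/-!
# Central subgroups of finitely dominated groups
-/

set_option autoImplicit false

namespace Pool.MP0c3001

noncomputable section

theorem center_fg_of_FD {G : Type} [Group G] (h : FD ℤ G) (C : Subgroup G)
    (hC : C ≤ Subgroup.center G)
    (hres : ∀ c ∈ C, (∀ H : Subgroup G, H.FiniteIndex → c ∈ H) → c = 1) : C.FG := by
  have hk : Function.Bijective (Int.cast : ℤ → ℤ) := by
    have : (Int.cast : ℤ → ℤ) = id := by funext x; simp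
    rw [this]; exact Function.bijective_id
  obtain ⟨n, h1⟩ := h.kills
  exact center_fg hk n h1 (h.fgCoh hk) C hC hres

end

end Pool.MP0c3001
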