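import Pool.Agent.Lib.MP_0c3001_gt.LA1

/-!
# The lattice bound (pure linear algebra)
-/

set_option autoImplicit false

namespace Pool.MP0c3001

namespace LatticeBound

open TensorProduct

/-- every vector of `ℚ ⊗ L` has a positive multiple in the image of `L` -/
theorem exists_mul (L : Type) [AddCommGroup L] (v : ℚ ⊗[ℤ] L) :
    ∃ (t : ℕ) (α : L), 0 < t ∧ t • v = (1 : ℚ) ⊗ₜ[ℤ] α := by
  obtain ⟨⟨α, s⟩, h⟩ := IsLocalizedModule.surj (nonZeroDivisors ℤ) (TensorProduct.mk ℤ ℚ L 1) v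
  have hs : (s : ℤ) ≠ 0 := nonZeroDivisors.ne_zero s.2
  have h' : (s : ℤ) • v = (1 : ℚ) ⊗ₜ[ℤ] α := h
  rcases lt_or_gt_of_ne hs with h1 | h1
  · refine ⟨(-(s : ℤ)).toNat, -α, by omega, ?_⟩
    have h2 : (((-(s : ℤ)).toNat : ℕ) : ℤ) = -(s : ℤ) := Int.toNat_of_nonneg (by omega)
    rw [← natCast_zsmul, h2, neg_smul, h', TensorProduct.tmul_neg]
  · refine ⟨(s : ℤ).toNat, α, by omega, ?_⟩
    have h2 : (((s : ℤ).toNat : ℕ) : ℤ) = (s : ℤ) := Int.toNat_of_nonneg (by omega)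
    rw [← natCast_zsmul, h2, h']

/-- the kernel of `L → ℚ ⊗ L` is torsion -/
theorem exists_torsion (L : Type) [AddCommGroup L] (α : L) (h : (1 : ℚ) ⊗ₜ[ℤ] α = 0) :
    ∃ t : ℕ, 0 < t ∧ t • α = 0 := by
  have h0 : TensorProduct.mk ℤ ℚ L 1 α = 0 := h
  obtain ⟨s, hs⟩ := (IsLocalizedModule.eq_zero_iff (nonZeroDivisors ℤ)
    (TensorProduct.mk ℤ ℚ L 1)).mp h0
  have hs0 : (s : ℤ) ≠ 0 := nonZeroDivisors.ne_zero s.2
  have h' : (s : ℤ) • α = 0 := hs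
  rcases lt_or_gt_of_ne hs0 with h1 | h1
  · refine ⟨(-(s : ℤ)).toNat, by omega, ?_⟩
    have h2 : (((-(s : ℤ)).toNat : ℕ) : ℤ) = -(s : ℤ) := Int.toNat_of_nonneg (by omega)
    rw [← natCast_zsmul, h2, neg_smul, h', neg_zero]
  · refine ⟨(s : ℤ).toNat, by omega, ?_⟩
    have h2 : (((s : ℤ).toNat : ℕ) : ℤ) = (s : ℤ) := Int.toNat_of_nonneg (by omega)
    rw [← natCast_zsmul, h2, h']

theorem nsmul_cancel {V : Type} [AddCommGroup V] [Module ℚ V] {t : ℕ} (ht : 0 < t) {v : V}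
    (h : t • v = 0) : v = 0 := by
  have h1 : (t : ℚ) • v = 0 := by rw [Nat.cast_smul_eq_nsmul]; exact h
  rcases smul_eq_zero.mp h1 with h2 | h2
  · exact absurd (by exact_mod_cast h2) ht.ne'
  · exact h2

/-- the map on `ℚ ⊗ L` -/
noncomputable def ext {L₀ L₁ : Type} [AddCommGroup L₀] [AddCommGroup L₁] (g : L₀ →+ L₁) :
    ℚ ⊗[ℤ] L₀ →ₗ[ℚ] ℚ ⊗[ℤ] L₁ := g.toIntLinearMap.baseChange ℚ

theorem ext_tmul {L₀ L₁ : Type} [AddCommGroup L₀] [AddCommGroup L₁] (g : L₀ →+ L₁) (q : ℚ)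
    (α : L₀) : ext g (q ⊗ₜ[ℤ] α) = q ⊗ₜ[ℤ] g α := rfl

theorem nsmul_tmul' {L : Type} [AddCommGroup L] (t : ℕ) (α : L) :
    (1 : ℚ) ⊗ₜ[ℤ] (t • α) = t • ((1 : ℚ) ⊗ₜ[ℤ] α) := by
  rw [← natCast_zsmul, TensorProduct.tmul_smul, natCast_zsmul]

/-- a map with torsion kernel is injective on `ℚ ⊗ L` -/
theorem ext_injective {L₀ L₁ : Type} [AddCommGroup L₀] [AddCommGroup L₁] (g : L₀ →+ L₁) (t₀ : ℕ)
    (ht₀ : 0 < t₀) (hg : ∀ α, g α = 0 → t₀ • α = 0) : Function.Injective (ext g) := by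
  rw [injective_iff_map_eq_zero]
  intro v hv
  obtain ⟨t, α, ht, h⟩ := exists_mul L₀ v
  have h1 : (1 : ℚ) ⊗ₜ[ℤ] g α = 0 := by
    rw [← ext_tmul, ← h, map_nsmul, hv, smul_zero]
  obtain ⟨s, hs, hs'⟩ := exists_torsion L₁ _ h1
  rw [← map_nsmul] at hs'
  have h2 := hg _ hs'
  have h3 : (1 : ℚ) ⊗ₜ[ℤ] (t₀ • s • α) = 0 := by rw [h2, TensorProduct.tmul_zero]
  rw [nsmul_tmul', nsmul_tmul', ← h] at h3
  exact nsmul_cancel ht (nsmul_cancel hs (nsmul_cancel ht₀ h3))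

theorem ext_surjective {L₀ L₁ : Type} [AddCommGroup L₀] [AddCommGroup L₁] (g : L₀ →+ L₁) (t₀ : ℕ)
    (ht₀ : 0 < t₀) (hg : ∀ β, ∃ α, g α = t₀ • β) : Function.Surjective (ext g) := by
  intro w
  obtain ⟨t, β, ht, h⟩ := exists_mul L₁ w
  obtain ⟨α, hα⟩ := hg β
  refine ⟨((t₀ * t : ℕ) : ℚ)⁻¹ • ((1 : ℚ) ⊗ₜ[ℤ] α), ?_⟩
  rw [map_smul, ext_tmul, hα, nsmul_tmul', ← h, ← mul_nsmul', ← Nat.cast_smul_eq_nsmul ℚ,
    smul_smul, inv_mul_cancel₀, one_smul]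
  have : 0 < t₀ * t := Nat.mul_pos ht₀ ht
  exact_mod_cast this.ne'

theorem ext_add {L₀ L₁ : Type} [AddCommGroup L₀] [AddCommGroup L₁] (g h : L₀ →+ L₁) :
    ext (g + h) = ext g + ext h := by
  apply LinearMap.ext
  intro v
  obtain ⟨t, α, ht, hv⟩ := exists_mul L₀ v
  have h1 : t • (ext (g + h) v - (ext g + ext h) v) = 0 := by
    rw [smul_sub, LinearMap.add_apply, smul_add, ← map_nsmul, ← map_nsmul, ← map_nsmul, hv,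
      ext_tmul, ext_tmul, ext_tmul, AddMonoidHom.add_apply, TensorProduct.tmul_add, sub_self]
  exact sub_eq_zero.mp (nsmul_cancel ht h1)

/-- `c ↦ E c` on `ℚ ⊗ L` -/
noncomputable def extHom (r : ℕ) {L₀ L₁ : Type} [AddCommGroup L₀] [AddCommGroup L₁]
    (E : (Fin r → ℤ) →+ L₀ →+ L₁) : (Fin r → ℤ) →+ (ℚ ⊗[ℤ] L₀ →ₗ[ℚ] ℚ ⊗[ℤ] L₁) :=
  AddMonoidHom.mk' (fun c => ext (E c)) fun c d => by rw [map_add, ext_add]

theorem extHom_tmul (r : ℕ) {L₀ L₁ : Type} [AddCommGroup L₀] [AddCommGroup L₁]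
    (E : (Fin r → ℤ) →+ L₀ →+ L₁) (c : Fin r → ℤ) (q : ℚ) (α : L₀) :
    extHom r E c (q ⊗ₜ[ℤ] α) = q ⊗ₜ[ℤ] E c α := rfl

theorem lattice_bound (r : ℕ) (j₀ : Fin r) (L₀ L₁ : Type) [AddCommGroup L₀] [AddCommGroup L₁]
    [Module.Finite ℤ L₀] [Module.Finite ℤ L₁] (E : (Fin r → ℤ) →+ L₀ →+ L₁)
    (hE : ∀ c : Fin r → ℤ, c ≠ 0 → ∃ t : ℕ, 0 < t ∧ (∀ α, E c α = 0 → t • α = 0) ∧
      ∀ β, ∃ α, E c α = t • β)
    (α₀ : L₀) (hα₀ : ∀ t : ℕ, 0 < t → t • α₀ ≠ 0) (m : ℕ) (hm : 0 < m) :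
    ∃ M : ℕ, 0 < M ∧ ∀ (L₀' L₁' : Type) [AddCommGroup L₀'] [AddCommGroup L₁']
      [Module.Finite ℤ L₀'] (E' : (Fin r → ℤ) →+ L₀' →+ L₁') (ι₀ : L₀ →+ L₀') (ι₁ : L₁ →+ L₁'),
      (∀ c α, ι₁ (E c α) = E' c (ι₀ α)) → (∃ t₀ : ℕ, 0 < t₀ ∧ ∀ α, ι₀ α = 0 → t₀ • α = 0) →
      (∀ α', E' (Pi.single j₀ 1) α' = 0 → m • α' = 0) →
      (∀ β', ∃ α', E' (Pi.single j₀ 1) α' = m • β') →
      ∀ (N : ℕ), 0 < N → ∀ (c : Fin r → ℤ), (∀ α', ∃ β', E' c α' = N • β') →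
        ∀ j, (N : ℤ) ∣ M * c j := by
  have hbij : ∀ c : Fin r → ℤ, c ≠ 0 → Function.Bijective (extHom r E c) := by
    intro c hc
    obtain ⟨t, ht, h1, h2⟩ := hE c hc
    exact ⟨ext_injective (E c) t ht h1, ext_surjective (E c) t ht h2⟩
  have hj0 : (Pi.single j₀ 1 : Fin r → ℤ) ≠ 0 := by
    intro h
    have := congrFun h j₀
    simp at this
  have hbj := hbij _ hj0
  let e : ℚ ⊗[ℤ] L₀ ≃ₗ[ℚ] ℚ ⊗[ℤ] L₁ := LinearEquiv.ofBijective (extHom r E (Pi.single j₀ 1)) hbj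
  have he : ∀ v, e v = extHom r E (Pi.single j₀ 1) v := fun v => rfl
  let τ : (Fin r → ℤ) →+ (ℚ ⊗[ℤ] L₀ →ₗ[ℚ] ℚ ⊗[ℤ] L₀) :=
    AddMonoidHom.mk' (fun c => e.symm.toLinearMap ∘ₗ extHom r E c) fun c d => by
      rw [map_add, LinearMap.comp_add]
  have hτdef : ∀ c v, τ c v = e.symm (extHom r E c v) := fun c v => rfl
  have hτ : ∀ c : Fin r → ℤ, c ≠ 0 → Function.Bijective (τ c) := by
    intro c hc
    exact e.symm.bijective.comp (hbij c hc)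
  have hnt : Nontrivial (ℚ ⊗[ℤ] L₀) := by
    refine ⟨⟨(1 : ℚ) ⊗ₜ[ℤ] α₀, 0, ?_⟩⟩
    intro h
    obtain ⟨t, ht, h'⟩ := exists_torsion L₀ α₀ h
    exact hα₀ t ht h'
  obtain ⟨M, hM, hMM⟩ := trace_bound r (ℚ ⊗[ℤ] L₀) τ hτ m hm
  refine ⟨M, hM, ?_⟩
  intro L₀' L₁' _ _ _ E' ι₀ ι₁ hcomm hker hinj' hsur' N hN c hc j
  obtain ⟨t₀, ht₀, hker⟩ := hker
  refine hMM c N ?_ j
  -- the maps over `ℚ`
  have hιinj : Function.Injective (ext ι₀) := ext_injective ι₀ t₀ ht₀ hker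
  have hEinj : Function.Injective (extHom r E' (Pi.single j₀ 1)) :=
    ext_injective (E' (Pi.single j₀ 1)) m hm hinj'
  have hcommQ : ∀ (c : Fin r → ℤ) (v : ℚ ⊗[ℤ] L₀),
      ext ι₁ (extHom r E c v) = extHom r E' c (ext ι₀ v) := by
    intro c v
    obtain ⟨t, α, ht, hv⟩ := exists_mul L₀ v
    have h1 : t • (ext ι₁ (extHom r E c v) - extHom r E' c (ext ι₀ v)) = 0 := by
      rw [smul_sub, ← map_nsmul, ← map_nsmul, ← map_nsmul, ← map_nsmul, hv, extHom_tmul, ext_tmul,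
        ext_tmul, extHom_tmul, hcomm, sub_self]
    exact sub_eq_zero.mp (nsmul_cancel ht h1)
  -- the lattice
  let Λ' : AddSubgroup (ℚ ⊗[ℤ] L₀') :=
    (TensorProduct.mk ℤ ℚ L₀' 1).toAddMonoidHom.range
  have hΛ' : ∀ x, x ∈ Λ' ↔ ∃ α', (1 : ℚ) ⊗ₜ[ℤ] α' = x := fun x => Iff.rfl
  let Λ : AddSubgroup (ℚ ⊗[ℤ] L₀) := Λ'.comap (ext ι₀).toAddMonoidHom
  have hΛ : ∀ v, v ∈ Λ ↔ ∃ α', (1 : ℚ) ⊗ₜ[ℤ] α' = ext ι₀ v := fun v => Iff.rfl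
  -- the key computation
  have key : ∀ (c : Fin r → ℤ) (v : ℚ ⊗[ℤ] L₀) (α' : L₀'), (1 : ℚ) ⊗ₜ[ℤ] α' = ext ι₀ v →
      extHom r E' (Pi.single j₀ 1) (ext ι₀ (m • τ c v)) = m • ((1 : ℚ) ⊗ₜ[ℤ] E' c α') := by
    intro c v α' h
    rw [map_nsmul, map_nsmul, ← hcommQ, hτdef, ← he, LinearEquiv.apply_symm_apply, hcommQ, ← h,
      extHom_tmul]
  have hpres : ∀ (c : Fin r → ℤ) (v : ℚ ⊗[ℤ] L₀), v ∈ Λ → m • τ c v ∈ Λ := by
    intro c v hv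
    obtain ⟨α', h⟩ := (hΛ v).mp hv
    obtain ⟨α'', h''⟩ := hsur' (E' c α')
    refine (hΛ _).mpr ⟨α'', hEinj ?_⟩
    rw [key c v α' h, extHom_tmul, h'', nsmul_tmul']
  have hdiv : ∀ v : ℚ ⊗[ℤ] L₀, v ∈ Λ → ∃ w ∈ Λ, m • τ c v = N • w := by
    intro v hv
    obtain ⟨α', h⟩ := (hΛ v).mp hv
    obtain ⟨β', hβ⟩ := hc α'
    obtain ⟨α'', h''⟩ := hsur' β'
    have hN0 : (N : ℚ) ≠ 0 := by exact_mod_cast hN.ne'
    have h1 : ext ι₀ (m • τ c v) = N • ((1 : ℚ) ⊗ₜ[ℤ] α'') := by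
      apply hEinj
      rw [key c v α' h, hβ, map_nsmul, extHom_tmul, h'', nsmul_tmul', nsmul_tmul', smul_comm]
    refine ⟨(N : ℚ)⁻¹ • (m • τ c v), (hΛ _).mpr ⟨α'', ?_⟩, ?_⟩
    · rw [map_smul, h1, ← Nat.cast_smul_eq_nsmul ℚ N, smul_smul, inv_mul_cancel₀ hN0, one_smul]
    · rw [← Nat.cast_smul_eq_nsmul ℚ N, smul_smul, mul_inv_cancel₀ hN0, one_smul]
  -- `Λ` is finitely generated and spans
  have hfg : Λ.FG := by
    have hP : (AddSubgroup.toIntSubmodule Λ).FG := by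
      let f : AddSubgroup.toIntSubmodule Λ →ₗ[ℤ] LinearMap.range (TensorProduct.mk ℤ ℚ L₀' 1) :=
        (((ext ι₀).restrictScalars ℤ) ∘ₗ (AddSubgroup.toIntSubmodule Λ).subtype).codRestrict _
          fun v => (hΛ _).mp v.2
      have hf : Function.Injective f := by
        intro v w h
        have h1 : ext ι₀ v.1 = ext ι₀ w.1 := congrArg Subtype.val h
        exact Subtype.ext (hιinj h1)
      have : IsNoetherian ℤ (AddSubgroup.toIntSubmodule Λ) := isNoetherian_of_injective f hf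
      exact Module.Finite.iff_fg.mp inferInstance
    exact (Submodule.fg_iff_addSubgroup_fg _).mp hP
  have hspan : ∀ v : ℚ ⊗[ℤ] L₀, ∃ t : ℕ, 0 < t ∧ t • v ∈ Λ := by
    intro v
    obtain ⟨t, α, ht, h⟩ := exists_mul L₀ v
    refine ⟨t, ht, (hΛ _).mpr ⟨ι₀ α, ?_⟩⟩
    rw [h, ext_tmul]
  intro γ hγ
  have hγΛ : ∀ v ∈ Λ, γ v ∈ Λ := by
    induction hγ using Subring.closure_induction with
    | mem x hx =>
      obtain ⟨i, rfl⟩ := hx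
      intro v hv
      exact hpres _ v hv
    | zero => intro v _; exact Λ.zero_mem
    | one => intro v hv; exact hv
    | add x y _ _ hx hy => intro v hv; exact Λ.add_mem (hx v hv) (hy v hv)
    | neg x _ hx => intro v hv; exact Λ.neg_mem (hx v hv)
    | mul x y _ _ hx hy => intro v hv; exact hx _ (hy v hv)
  exact trace_dvd (ℚ ⊗[ℤ] L₀) Λ hfg hspan _ N fun v hv => hdiv (γ v) (hγΛ v hv)

end LatticeBound

end Pool.MP0c3001
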