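import Mathlib

/-!
# Lattices and traces
-/

set_option autoImplicit false

namespace Pool.MP0c3001

/-- The trace of an endomorphism of a finite dimensional rational vector space which maps a
(finitely generated, spanning) lattice `Λ` into `N Λ` is an integer multiple of `N`. -/
theorem trace_dvd (V : Type) [AddCommGroup V] [Module ℚ V] [Module.Finite ℚ V]
    (Λ : AddSubgroup V) (hfg : Λ.FG) (hspan : ∀ v : V, ∃ t : ℕ, 0 < t ∧ t • v ∈ Λ)
    (f : V →ₗ[ℚ] V) (N : ℕ) (hf : ∀ v ∈ Λ, ∃ w ∈ Λ, f v = N • w) :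
    ∃ n : ℤ, LinearMap.trace ℚ V f = (N : ℚ) * n := by
  classical
  let L : Submodule ℤ V := AddSubgroup.toIntSubmodule Λ
  have hL : ∀ v, v ∈ L ↔ v ∈ Λ := fun v => Iff.rfl
  have hlat : Submodule.IsLattice ℚ L := by
    refine ⟨?_, ?_⟩
    · rw [Submodule.fg_iff_addSubgroup_fg]
      exact hfg
    · rw [eq_top_iff]
      intro v _
      obtain ⟨t, ht, htv⟩ := hspan v
      have h1 : v = ((t : ℚ)⁻¹) • (t • v) := by
        rw [← Nat.cast_smul_eq_nsmul ℚ t v, smul_smul, inv_mul_cancel₀ (by exact_mod_cast ht.ne'), one_smul]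
      rw [h1]
      exact Submodule.smul_mem _ _ (Submodule.subset_span htv)
  have hfin : Module.Finite ℤ L := Submodule.IsLattice.finite ℚ L
  have hfree : Module.Free ℤ L := Submodule.IsLattice.free ℚ L
  let b := Module.Free.chooseBasis ℤ L
  let B : Module.Basis (Module.Free.ChooseBasisIndex ℤ L) ℚ V := Module.Basis.extendOfIsLattice ℚ b
  have hB : ∀ k, B k = (b k : V) := fun k => Module.Basis.extendOfIsLattice_apply ℚ b k
  have hrepr : ∀ (w : L) (i : Module.Free.ChooseBasisIndex ℤ L), B.repr (w : V) i = (b.repr w i : ℚ) := by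
    intro w i
    have h1 : (w : V) = ∑ k, (b.repr w k : ℚ) • B k := by
      have h2 := congrArg (Submodule.subtype L) (b.sum_repr w)
      rw [map_sum] at h2
      rw [Submodule.subtype_apply] at h2
      rw [← h2]
      refine Finset.sum_congr rfl fun k _ => ?_
      rw [hB, map_smul, Submodule.subtype_apply, Int.cast_smul_eq_zsmul]
    rw [h1, map_sum, Finset.sum_apply']
    rw [Finset.sum_eq_single i]
    · rw [map_smul, Module.Basis.repr_self, Finsupp.smul_apply, Finsupp.single_eq_same, smul_eq_mul, mul_one]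
    · intro k _ hk
      rw [map_smul, Module.Basis.repr_self, Finsupp.smul_apply, Finsupp.single_eq_of_ne hk.symm, smul_zero]
    · intro h
      exact absurd (Finset.mem_univ _) h
  have hw : ∀ i, ∃ w : L, f (B i) = N • (w : V) := by
    intro i
    obtain ⟨w, hw, h1⟩ := hf (b i : V) (b i).2
    exact ⟨⟨w, hw⟩, by rw [hB]; exact h1⟩
  choose w hw using hw
  refine ⟨∑ i, b.repr (w i) i, ?_⟩
  rw [LinearMap.trace_eq_matrix_trace ℚ B f, Matrix.trace]
  push_cast
  rw [Finset.mul_sum]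
  refine Finset.sum_congr rfl fun i _ => ?_
  rw [Matrix.diag_apply, LinearMap.toMatrix_apply, hw, map_nsmul, Finsupp.smul_apply, hrepr, nsmul_eq_mul]

/-- an invertible endomorphism `g` divides a non-zero scalar inside each subring which contains `g` -/
theorem exists_adj {V : Type} [AddCommGroup V] [Module ℚ V] [Module.Finite ℚ V] (g : Module.End ℚ V)
    (hg : Function.Bijective g) (T : Subring (Module.End ℚ V)) (hT : g ∈ T) :
    ∃ γ ∈ T, ∃ t : ℚ, t ≠ 0 ∧ g * γ = t • (1 : Module.End ℚ V) := by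
  have hdet : LinearMap.det g ≠ 0 := by
    have h1 : IsUnit g := (Module.End.isUnit_iff g).2 hg
    exact ((LinearMap.isUnit_iff_isUnit_det g).1 h1).ne_zero
  have ha0 : (LinearMap.charpoly g).coeff 0 ≠ 0 := by
    intro h
    apply hdet
    rw [LinearMap.det_eq_sign_charpoly_coeff, h, mul_zero]
  obtain ⟨b, hb, hbQ⟩ := IsLocalization.integerNormalization_spec (nonZeroDivisors ℤ) (LinearMap.charpoly g).divX
  generalize IsLocalization.integerNormalization (nonZeroDivisors ℤ) (LinearMap.charpoly g).divX = P at hbQ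
  have hb0 : b ≠ 0 := nonZeroDivisors.ne_zero hb
  have hCH : Polynomial.aeval g (LinearMap.charpoly g) = 0 := LinearMap.aeval_self_charpoly g
  rw [← Polynomial.X_mul_divX_add (LinearMap.charpoly g), map_add, map_mul, Polynomial.aeval_X, Polynomial.aeval_C,
    Algebra.algebraMap_eq_smul_one] at hCH
  have hP : Polynomial.aeval g P = (b : ℚ) • Polynomial.aeval g (LinearMap.charpoly g).divX := by
    rw [← Polynomial.aeval_map_algebraMap ℚ g P, hbQ, map_zsmul, Int.cast_smul_eq_zsmul]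
  refine ⟨Polynomial.aeval g P, ?_, -((b : ℚ) * (LinearMap.charpoly g).coeff 0), ?_, ?_⟩
  · rw [Polynomial.aeval_eq_sum_range]
    exact T.sum_mem fun i _ => T.zsmul_mem (T.pow_mem hT i) _
  · exact neg_ne_zero.2 (mul_ne_zero (by exact_mod_cast hb0) ha0)
  · rw [hP, mul_smul_comm, eq_neg_of_add_eq_zero_left hCH, smul_neg, smul_smul, neg_smul]

/-- The algebraic part of the lattice bound. -/
theorem trace_bound (r : ℕ) (V : Type) [AddCommGroup V] [Module ℚ V] [Module.Finite ℚ V]
    [Nontrivial V] (τ : (Fin r → ℤ) →+ (V →ₗ[ℚ] V))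
    (hτ : ∀ c : Fin r → ℤ, c ≠ 0 → Function.Bijective (τ c)) (m : ℕ) (hm : 0 < m) :
    ∃ M : ℕ, 0 < M ∧ ∀ (c : Fin r → ℤ) (N : ℕ),
      (∀ γ ∈ Subring.closure (Set.range (fun i : Fin r => ((m • τ (Pi.single i 1) :
          V →ₗ[ℚ] V) : Module.End ℚ V))),
        ∃ n : ℤ, LinearMap.trace ℚ V ((m • τ c) ∘ₗ γ) = (N : ℚ) * n) →
      ∀ j, (N : ℤ) ∣ M * c j := by
  classical
  set T := Subring.closure (Set.range (fun i : Fin r => ((m • τ (Pi.single i 1) :
    V →ₗ[ℚ] V) : Module.End ℚ V))) with hTdef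
  have hgen : ∀ i : Fin r, (m • τ (Pi.single i 1) : Module.End ℚ V) ∈ T := fun i =>
    Subring.subset_closure ⟨i, rfl⟩
  have hτc : ∀ c : Fin r → ℤ, τ c = ∑ i, c i • τ (Pi.single i 1) := by
    intro c
    conv_lhs => rw [pi_eq_sum_univ' c]
    rw [map_sum]
    refine Finset.sum_congr rfl fun i _ => ?_
    rw [map_zsmul]
  have hmem : ∀ c : Fin r → ℤ, (m • τ c : Module.End ℚ V) ∈ T := by
    intro c
    rw [hτc, Finset.smul_sum]
    refine T.sum_mem fun i _ => ?_
    rw [smul_comm]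
    exact T.zsmul_mem (hgen i) _
  -- the vectors of traces
  let u : Module.End ℚ V →+ (Fin r → ℚ) :=
    { toFun := fun γ i => LinearMap.trace ℚ V (τ (Pi.single i 1) ∘ₗ γ)
      map_zero' := by
        funext i
        rw [LinearMap.comp_zero, map_zero]
        rfl
      map_add' := fun γ δ => by
        funext i
        rw [LinearMap.comp_add, map_add]
        rfl }
  have hu : ∀ γ i, u γ i = LinearMap.trace ℚ V (τ (Pi.single i 1) ∘ₗ γ) := fun _ _ => rfl
  have htr : ∀ (c : Fin r → ℤ) (γ : Module.End ℚ V),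
      LinearMap.trace ℚ V (τ c ∘ₗ γ) = ∑ i, (c i : ℚ) * u γ i := by
    intro c γ
    have h1 : (∑ i, c i • τ (Pi.single i 1)) ∘ₗ γ = ∑ i, c i • (τ (Pi.single i 1) ∘ₗ γ) := by
      have h2 : ((∑ i, c i • (τ (Pi.single i 1) : Module.End ℚ V)) * γ : Module.End ℚ V) =
          ∑ i, c i • ((τ (Pi.single i 1) : Module.End ℚ V) * γ) := by
        rw [Finset.sum_mul]
        refine Finset.sum_congr rfl fun i _ => ?_
        rw [smul_mul_assoc]
      exact h2
    rw [hτc, h1, map_sum]
    refine Finset.sum_congr rfl fun i _ => ?_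
    rw [map_zsmul, hu, zsmul_eq_mul]
  -- nondegeneracy
  have hnd : ∀ c : Fin r → ℤ, c ≠ 0 → ∃ γ ∈ T, LinearMap.trace ℚ V (τ c ∘ₗ γ) ≠ 0 := by
    intro c hc
    have hbij : Function.Bijective (m • τ c : Module.End ℚ V) := by
      have h1 : (m • τ c : Module.End ℚ V) = τ (m • c) := (map_nsmul τ m c).symm
      rw [h1]
      refine hτ _ ?_
      intro h
      apply hc
      funext i
      have h2 := congrFun h i
      rw [Pi.smul_apply, nsmul_eq_mul, Pi.zero_apply] at h2
      rcases mul_eq_zero.1 h2 with h3 | h3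
      · exact absurd h3 (by exact_mod_cast hm.ne')
      · exact h3
    obtain ⟨γ, hγ, t, ht, hgt⟩ := exists_adj (m • τ c : Module.End ℚ V) hbij T (hmem c)
    refine ⟨γ, hγ, fun h0 => ?_⟩
    have h1 : LinearMap.trace ℚ V ((m • τ c : Module.End ℚ V) * γ) = t * Module.finrank ℚ V := by
      rw [hgt, map_smul, LinearMap.trace_one, smul_eq_mul]
    have h2 : LinearMap.trace ℚ V ((m • τ c : Module.End ℚ V) * γ) = 0 := by
      have h3 : ((m • τ c : Module.End ℚ V) * γ) = m • (τ c ∘ₗ γ) := by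
        rw [smul_mul_assoc]
        rfl
      rw [h3, map_nsmul, h0, smul_zero]
    rw [h2] at h1
    have h4 : (Module.finrank ℚ V : ℚ) ≠ 0 := by
      exact_mod_cast (Module.finrank_pos (R := ℚ) (M := V)).ne'
    exact (mul_ne_zero ht h4) h1.symm
  -- the rational subspace
  let W : Submodule ℚ (Fin r → ℚ) :=
    { carrier := {x | ∃ D : ℕ, 0 < D ∧ ∃ γ ∈ T, u γ = (D : ℚ) • x}
      zero_mem' := ⟨1, one_pos, 0, T.zero_mem, by rw [map_zero, smul_zero]⟩
      add_mem' := by
        rintro x y ⟨D, hD, γ, hγ, hx⟩ ⟨D', hD', γ', hγ', hy⟩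
        refine ⟨D * D', Nat.mul_pos hD hD', D' • γ + D • γ', T.add_mem (T.nsmul_mem hγ _) (T.nsmul_mem hγ' _), ?_⟩
        rw [map_add, map_nsmul, map_nsmul, hx, hy, ← Nat.cast_smul_eq_nsmul ℚ, ← Nat.cast_smul_eq_nsmul ℚ, smul_smul,
          smul_smul, smul_add]
        push_cast
        rw [mul_comm (D' : ℚ) D]
      smul_mem' := by
        rintro a x ⟨D, hD, γ, hγ, hx⟩
        refine ⟨D * a.den, Nat.mul_pos hD a.pos, a.num • γ, T.zsmul_mem hγ _, ?_⟩
        rw [map_zsmul, hx, ← Int.cast_smul_eq_zsmul ℚ, smul_smul, smul_smul]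
        congr 1
        push_cast
        have h1 : a * (a.den : ℚ) = a.num := Rat.mul_den_eq_num a
        rw [← h1]
        ring }
  have hWtop : W = ⊤ := by
    by_contra hW
    obtain ⟨f, hf0, hf⟩ := Submodule.exists_le_ker_of_lt_top W (lt_top_iff_ne_top.2 hW)
    let a : Fin r → ℚ := fun i => f (Pi.single i 1)
    have hfa : ∀ x : Fin r → ℚ, f x = ∑ i, x i * a i := by
      intro x
      conv_lhs => rw [pi_eq_sum_univ' x]
      rw [map_sum]
      refine Finset.sum_congr rfl fun i _ => ?_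
      rw [map_smul, smul_eq_mul]
    let D : ℕ := ∏ i, (a i).den
    have hD : 0 < D := Finset.prod_pos fun i _ => (a i).pos
    have hint : ∀ i, ∃ z : ℤ, (z : ℚ) = D * a i := by
      intro i
      obtain ⟨e, he⟩ : (a i).den ∣ D := Finset.dvd_prod_of_mem _ (Finset.mem_univ i)
      refine ⟨e * (a i).num, ?_⟩
      have h1 : a i * ((a i).den : ℚ) = (a i).num := Rat.mul_den_eq_num (a i)
      rw [he]
      push_cast
      rw [← h1]
      ring
    choose c hc using hint
    have hc0 : c ≠ 0 := by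
      intro h
      apply hf0
      have hai : ∀ i, a i = 0 := by
        intro i
        have h1 := hc i
        rw [h, Pi.zero_apply, Int.cast_zero] at h1
        rcases mul_eq_zero.1 h1.symm with h2 | h2
        · exact absurd h2 (by exact_mod_cast hD.ne')
        · exact h2
      refine LinearMap.ext fun x => ?_
      rw [hfa, LinearMap.zero_apply]
      exact Finset.sum_eq_zero fun i _ => by rw [hai, mul_zero]
    obtain ⟨γ, hγ, hne⟩ := hnd c hc0
    apply hne
    have h1 : f (u γ) = 0 := hf (show u γ ∈ W from ⟨1, one_pos, γ, hγ, by rw [Nat.cast_one, one_smul]⟩)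
    rw [htr]
    have h2 : ∑ i, (c i : ℚ) * u γ i = D * f (u γ) := by
      rw [hfa, Finset.mul_sum]
      refine Finset.sum_congr rfl fun i _ => ?_
      rw [hc]
      ring
    rw [h2, h1, mul_zero]
  have hex : ∀ i : Fin r, ∃ D : ℕ, 0 < D ∧ ∃ γ ∈ T, u γ = (D : ℚ) • (Pi.single i 1 : Fin r → ℚ) := by
    intro i
    have h1 : (Pi.single i 1 : Fin r → ℚ) ∈ W := by
      rw [hWtop]
      exact Submodule.mem_top
    exact h1
  choose D hD γ hγT hγ using hex
  refine ⟨m * ∏ i, D i, Nat.mul_pos hm (Finset.prod_pos fun i _ => hD i), ?_⟩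
  intro c N h j
  obtain ⟨n, hn⟩ := h (γ j) (hγT j)
  have h1 : LinearMap.trace ℚ V ((m • τ c) ∘ₗ γ j) = (m : ℚ) * ((D j : ℚ) * c j) := by
    rw [LinearMap.smul_comp, map_nsmul, htr, hγ, nsmul_eq_mul]
    congr 1
    rw [Finset.sum_eq_single j]
    · rw [Pi.smul_apply, Pi.single_eq_same, smul_eq_mul, mul_one, mul_comm]
    · intro i _ hi
      rw [Pi.smul_apply, Pi.single_eq_of_ne hi, smul_zero, mul_zero]
    · intro hj
      exact absurd (Finset.mem_univ _) hj
  have h2 : (m : ℤ) * ((D j : ℤ) * c j) = N * n := by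
    have h3 := h1.symm.trans hn
    exact_mod_cast h3
  have h4 : (N : ℤ) ∣ (m : ℤ) * ((D j : ℤ) * c j) := ⟨n, h2⟩
  obtain ⟨e, he⟩ : D j ∣ ∏ i, D i := Finset.dvd_prod_of_mem _ (Finset.mem_univ j)
  rw [he]
  push_cast
  have h5 : (m : ℤ) * ((D j : ℤ) * e) * c j = (m : ℤ) * ((D j : ℤ) * c j) * e := by ring
  rw [h5]
  exact h4.mul_right _

end Pool.MP0c3001
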